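import Pool.Agent.TH705.SV.Net

/-!
# Networks of arcs with multiplicities as graphs with unit lengths

An arc `(u, v, c)` with multiplicity `m` is replaced by `m` paths with `c` edges each.
-/

namespace Pool.Agent.TH705.SV

variable {β : Type} [DecidableEq β]

/-- arcs: tail, head, length -/
abbrev Arc (β : Type) := β × β × ℕ

/-- names of vertices: base vertices, and inner vertices `(α, r, i)` of the `r`-th copy of the arc
`α` -/
abbrev Name (β : Type) := β ⊕ (Arc β × ℕ × ℕ)

/-- adjacency of names (one direction) -/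
def link (x y : Name β) : Bool :=
  Sum.elim
    (fun a => Sum.elim (fun _ => false)
      (fun m => (decide (a = m.1.1) && decide (m.2.2 = 1)) ||
        (decide (a = m.1.2.1) && decide (m.2.2 + 1 = m.1.2.2))) y)
    (fun m => Sum.elim (fun _ => false)
      (fun m' => decide (m.1 = m'.1) && (decide (m.2.1 = m'.2.1) &&
        decide (m'.2.2 = m.2.2 + 1))) y) x

theorem link_irr (x : Name β) : link x x = false := by
  rcases x with a | m
  · rfl
  · simp [link]

/-- the inner vertices -/
def mids (A : List (Arc β × ℕ)) : List (Name β) :=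
  A.flatMap fun p => (List.range p.2).flatMap fun r =>
    (List.range (p.1.2.2 - 1)).map fun i => Sum.inr (p.1, r, i + 1)

/-- the base vertices -/
def bases (A : List (Arc β × ℕ)) : List (Name β) :=
  A.flatMap fun p => [Sum.inl p.1.1, Sum.inl p.1.2.1]

/-- all other vertices -/
def others (A : List (Arc β × ℕ)) (s t : β) : List (Name β) :=
  ((bases A ++ mids A).filter
    (fun x => !decide (x = Sum.inl s) && !decide (x = Sum.inl t))).dedup

/-- all vertices -/
def verts (A : List (Arc β × ℕ)) (s t : β) : List (Name β) :=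
  Sum.inl s :: Sum.inl t :: others A s t

theorem verts_nodup (A : List (Arc β × ℕ)) {s t : β} (hst : s ≠ t) : (verts A s t).Nodup := by
  unfold verts others
  refine List.nodup_cons.2 ⟨?_, List.nodup_cons.2 ⟨?_, List.nodup_dedup _⟩⟩
  · simp [hst]
  · simp

theorem inl_mem_verts {A : List (Arc β × ℕ)} {s t : β} {p : Arc β × ℕ} (hp : p ∈ A) :
    Sum.inl p.1.1 ∈ verts A s t ∧ Sum.inl p.1.2.1 ∈ verts A s t := by
  have key : ∀ a : β, (a = p.1.1 ∨ a = p.1.2.1) → Sum.inl a ∈ verts A s t := by
    intro a ha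
    unfold verts others
    by_cases h1 : a = s
    · simp [h1]
    by_cases h2 : a = t
    · simp [h2]
    refine List.mem_cons_of_mem _ (List.mem_cons_of_mem _ ?_)
    rw [List.mem_dedup, List.mem_filter]
    refine ⟨List.mem_append_left _ ?_, by simp [h1, h2]⟩
    unfold bases
    rw [List.mem_flatMap]
    refine ⟨p, hp, ?_⟩
    rcases ha with rfl | rfl <;> simp
  exact ⟨key _ (Or.inl rfl), key _ (Or.inr rfl)⟩

theorem inr_mem_verts {A : List (Arc β × ℕ)} {s t : β} {α : Arc β} {r i : ℕ} :
    Sum.inr (α, r, i) ∈ verts A s t ↔ ∃ m, (α, m) ∈ A ∧ r < m ∧ 1 ≤ i ∧ i < α.2.2 := by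
  unfold verts others bases mids
  simp only [List.mem_cons, reduceCtorEq, false_or, List.mem_dedup, List.mem_filter,
    List.mem_append, List.mem_flatMap, List.not_mem_nil, or_false, or_self, and_false,
    exists_false, List.mem_map, List.mem_range, decide_false, Bool.not_false,
    Bool.and_self, and_true, Sum.inr.injEq, Prod.mk.injEq]
  constructor
  · rintro ⟨p, hp, r', hr', i', hi', h1, h2, h3⟩
    subst h1
    exact ⟨p.2, hp, by omega, by omega, by omega⟩
  · rintro ⟨m, hm, hr, h1, h2⟩
    exact ⟨(α, m), hm, r, hr, i - 1, by simp only; omega, rfl, rfl, by omega⟩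

/-- the vertices of the copy `r` of the arc `α` -/
def node (α : Arc β) (r i : ℕ) : Name β :=
  if i = 0 then Sum.inl α.1 else if i = α.2.2 then Sum.inl α.2.1 else Sum.inr (α, r, i)

omit [DecidableEq β] in
theorem node_zero (α : Arc β) (r : ℕ) : node α r 0 = Sum.inl α.1 := rfl

omit [DecidableEq β] in
theorem node_last (α : Arc β) (r : ℕ) (h : 2 ≤ α.2.2) : node α r α.2.2 = Sum.inl α.2.1 := by
  unfold node
  rw [if_neg (by omega), if_pos rfl]

omit [DecidableEq β] in
theorem node_mid (α : Arc β) (r : ℕ) {i : ℕ} (h1 : 1 ≤ i) (h2 : i < α.2.2) :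
    node α r i = Sum.inr (α, r, i) := by
  unfold node
  rw [if_neg (by omega), if_neg (by omega)]

theorem node_mem {A : List (Arc β × ℕ)} {s t : β} {α : Arc β} {m r i : ℕ} (h : (α, m) ∈ A)
    (hr : r < m) (hi : i ≤ α.2.2) (h2 : 2 ≤ α.2.2) : node α r i ∈ verts A s t := by
  rcases Nat.eq_zero_or_pos i with h0 | h0
  · subst h0
    exact (inl_mem_verts h).1
  · rcases Nat.lt_or_ge i α.2.2 with h3 | h3
    · rw [node_mid α r h0 h3, inr_mem_verts]
      exact ⟨m, h, hr, h0, h3⟩
    · rw [show i = α.2.2 by omega, node_last α r h2]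
      exact (inl_mem_verts h).2

theorem node_link (α : Arc β) (r : ℕ) {i : ℕ} (h2 : 2 ≤ α.2.2) (hi : i < α.2.2) :
    link (node α r i) (node α r (i + 1)) = true ∨ link (node α r (i + 1)) (node α r i) = true := by
  rcases Nat.eq_zero_or_pos i with h0 | h0
  · subst h0
    left
    rw [node_zero, node_mid α r le_rfl (by omega)]
    simp [link]
  · rcases Nat.lt_or_ge (i + 1) α.2.2 with h3 | h3
    · left
      rw [node_mid α r h0 hi, node_mid α r (by omega) h3]
      simp [link]
    · right
      have : i + 1 = α.2.2 := by omega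
      rw [this, node_last α r h2, node_mid α r h0 hi]
      simp [link, this]

/-- the `i`-th edge of the copy -/
def nedge (α : Arc β) (r i : ℕ) : Sym2 (Name β) := s(node α r i, node α r (i + 1))

omit [DecidableEq β] in
theorem nedge_mid (α : Arc β) (r : ℕ) {i : ℕ} (h2 : 2 ≤ α.2.2) (hi : i < α.2.2) :
    ∃ j, Sum.inr (α, r, j) ∈ nedge α r i := by
  rcases Nat.eq_zero_or_pos i with h0 | h0
  · subst h0
    exact ⟨1, by rw [nedge, node_mid α r le_rfl (by omega)]; simp⟩
  · exact ⟨i, by rw [nedge, node_mid α r h0 hi]; simp⟩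

omit [DecidableEq β] in
theorem node_inr {α γ : Arc β} {r r' i j : ℕ} (h : Sum.inr (α, r, j) = node γ r' i) :
    α = γ ∧ r = r' := by
  unfold node at h
  split_ifs at h
  simp only [Sum.inr.injEq, Prod.mk.injEq] at h
  exact ⟨h.1, h.2.1⟩

omit [DecidableEq β] in
theorem nedge_inj {α γ : Arc β} {r r' i j : ℕ} (h2 : 2 ≤ α.2.2) (hi : i < α.2.2)
    (h : nedge α r i = nedge γ r' j) : α = γ ∧ r = r' := by
  obtain ⟨a, ha⟩ := nedge_mid α r h2 hi
  rw [h, nedge, Sym2.mem_iff] at ha
  rcases ha with ha | ha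
  · exact node_inr ha
  · exact node_inr ha

/-- From a solution for the names to one for the arcs. -/
theorem net_sound {A : List (Arc β × ℕ)} {s t : β} {K ℓ : ℕ} (hc : ∀ p ∈ A, 2 ≤ p.1.2.2)
    (hm : ∀ p ∈ A, p.2 = 1 ∨ K < p.2) (h : NameMve (verts A s t) link (Sum.inl s) (Sum.inl t) K ℓ) :
    ∃ D : Finset (Arc β), D.card ≤ K ∧ (∀ α ∈ D, (α, 1) ∈ A) ∧ ∃ q : β → ℕ, q s = 0 ∧ ℓ ≤ q t ∧
      ∀ p ∈ A, p.1 ∉ D → q p.1.2.1 ≤ q p.1.1 + p.1.2.2 := by
  classical
  obtain ⟨S, hS, q, hq0, hq1, hq⟩ := h
  -- a copy that is not hit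
  have step : ∀ (α : Arc β) (m r : ℕ), (α, m) ∈ A → r < m → (∀ i < α.2.2, nedge α r i ∉ S) →
      q (Sum.inl α.2.1) ≤ q (Sum.inl α.1) + α.2.2 := by
    intro α m r hα hr hn
    have h2 : 2 ≤ α.2.2 := hc _ hα
    have key : ∀ i ≤ α.2.2, q (node α r i) ≤ q (Sum.inl α.1) + i := by
      intro i
      induction i with
      | zero => intro _; rw [node_zero]; omega
      | succ i ih =>
        intro hi
        have h3 := ih (by omega)
        have h4 := hq _ (node_mem hα hr (i := i) (by omega) h2) _
          (node_mem hα hr (i := i + 1) hi h2) (node_link α r h2 (by omega)) (hn i (by omega))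
        omega
    have := key _ le_rfl
    rwa [node_last α r h2] at this
  refine ⟨(A.map Prod.fst).toFinset.filter (fun α => (α, 1) ∈ A ∧ ∃ i < α.2.2, nedge α 0 i ∈ S),
    ?_, ?_, fun a => q (Sum.inl a), hq0, hq1, ?_⟩
  · refine le_trans ?_ hS
    refine Finset.card_le_card_of_injOn
      (fun α => if h : ∃ i < α.2.2, nedge α 0 i ∈ S then nedge α 0 h.choose else nedge α 0 0) ?_ ?_
    · intro α hα
      have h1 := (Finset.mem_filter.1 (Finset.mem_coe.1 hα)).2.2
      simp only [h1, dif_pos]
      exact h1.choose_spec.2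
    · intro α hα γ hγ heq
      have h1 := (Finset.mem_filter.1 (Finset.mem_coe.1 hα)).2
      have h2 := (Finset.mem_filter.1 (Finset.mem_coe.1 hγ)).2
      simp only [h1.2, h2.2, dif_pos] at heq
      exact (nedge_inj (hc _ h1.1) h1.2.choose_spec.1 heq).1
  · intro α hα
    exact (Finset.mem_filter.1 hα).2.1
  · rintro ⟨α, m⟩ hp hD
    simp only at hD ⊢
    rcases hm _ hp with h1 | h1
    · simp only at h1
      subst h1
      refine step α 1 0 hp one_pos fun i hi hiS => hD ?_
      rw [Finset.mem_filter, List.mem_toFinset]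
      exact ⟨List.mem_map_of_mem (f := Prod.fst) hp, hp, i, hi, hiS⟩
    · simp only at h1
      by_contra hcon
      have hall : ∀ r < m, ∃ i < α.2.2, nedge α r i ∈ S := by
        intro r hr
        by_contra h3
        exact hcon (step α m r hp hr (fun i hi hiS => h3 ⟨i, hi, hiS⟩))
      have h2 : m ≤ S.card := by
        rw [← Finset.card_range m]
        refine Finset.card_le_card_of_injOn
          (fun r => if h : ∃ i < α.2.2, nedge α r i ∈ S then nedge α r h.choose else nedge α r 0)
          ?_ ?_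
        · intro r hr
          have h3 := hall r (Finset.mem_range.1 (Finset.mem_coe.1 hr))
          simp only [h3, dif_pos]
          exact h3.choose_spec.2
        · intro r hr r' hr' heq
          have h3 := hall r (Finset.mem_range.1 (Finset.mem_coe.1 hr))
          have h4 := hall r' (Finset.mem_range.1 (Finset.mem_coe.1 hr'))
          simp only [h3, h4, dif_pos] at heq
          exact (nedge_inj (hc _ hp) h3.choose_spec.1 heq).2
      omega

/-- From a solution for the arcs to one for the names. -/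
theorem net_complete {A : List (Arc β × ℕ)} {s t : β} {K ℓ : ℕ}
    {D : Finset (Arc β)} (hD : D.card ≤ K) (hD1 : ∀ p ∈ A, p.1 ∈ D → p.2 = 1)
    {q : β → ℕ} (hq0 : q s = 0) (hq1 : ℓ ≤ q t)
    (hq : ∀ p ∈ A, p.1 ∉ D → q p.1.2.1 ≤ q p.1.1 + p.1.2.2 ∧ q p.1.1 ≤ q p.1.2.1 + p.1.2.2) :
    NameMve (verts A s t) link (Sum.inl s) (Sum.inl t) K ℓ := by
  classical
  let Q : Name β → ℕ := Sum.elim q (fun m => if m.1 ∈ D then q m.1.2.1 + (m.1.2.2 - m.2.2)
    else min (q m.1.1 + m.2.2) (q m.1.2.1 + (m.1.2.2 - m.2.2)))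
  -- both directions
  have key : ∀ x ∈ verts A s t, ∀ y ∈ verts A s t, link x y = true →
      s(x, y) ∉ D.image (fun α => nedge α 0 0) → Q y ≤ Q x + 1 ∧ Q x ≤ Q y + 1 := by
    intro x hx y hy hxy hS
    rcases x with a | ⟨α, r, i⟩
    · rcases y with b | ⟨α, r, i⟩
      · exact absurd hxy (by simp [link])
      · rw [inr_mem_verts] at hy
        obtain ⟨m, hm, hr, hi, hi2⟩ := hy
        have h1 : (a = α.1 ∧ i = 1) ∨ (a = α.2.1 ∧ i + 1 = α.2.2) := by
          simpa [link] using hxy
        by_cases hαD : α ∈ D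
        · have hm1 : m = 1 := hD1 _ hm hαD
          subst hm1
          have hr0 : r = 0 := by omega
          subst hr0
          rcases h1 with ⟨ha, hi1⟩ | ⟨ha, hi1⟩
          · exfalso
            refine hS (Finset.mem_image.2 ⟨α, hαD, ?_⟩)
            rw [nedge, node_zero, node_mid α 0 le_rfl (by omega), ha, hi1]
          · simp only [Q, Sum.elim_inl, Sum.elim_inr, hαD, if_true]
            rw [ha]
            omega
        · have h2 := hq _ hm hαD
          simp only at h2
          simp only [Q, Sum.elim_inl, Sum.elim_inr, hαD, if_false]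
          rcases h1 with ⟨ha, hi1⟩ | ⟨ha, hi1⟩
          · rw [ha]
            omega
          · rw [ha]
            omega
    · rcases y with b | ⟨α', r', i'⟩
      · exact absurd hxy (by simp [link])
      · have h1 : α = α' ∧ r = r' ∧ i' = i + 1 := by simpa [link] using hxy
        obtain ⟨rfl, rfl, rfl⟩ := h1
        rw [inr_mem_verts] at hy
        obtain ⟨m, hm, hr, hi, hi2⟩ := hy
        simp only [Q, Sum.elim_inr]
        split_ifs <;> omega
  refine ⟨D.image (fun α => nedge α 0 0), Finset.card_image_le.trans hD, Q, hq0, hq1, ?_⟩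
  intro x hx y hy hxy hS
  rcases hxy with h | h
  · exact (key x hx y hy h hS).1
  · refine (key y hy x hx h ?_).2
    rwa [Sym2.eq_swap]

end Pool.Agent.TH705.SV
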