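import Pool.Agent.TH705.SV.Arcs

/-!
# The network of a graph

There are chains `X a`, `Y b` (with `N` arcs) and `Z a b` (with `N * N` arcs) for `a, b < k`.
In each chain one arc has to be deleted, say the arcs with the numbers `x a`, `y b` and `z a b`;
the lengths of the paths through `X a`, `Z a b` and `Y b` enforce `z a b = N * x a + y b`.
-/

set_option linter.unusedSimpArgs false

namespace Pool.Agent.TH705.SV

/-- base vertices: kind, two indices, position in the chain -/
abbrev BV := ℕ × ℕ × ℕ × ℕ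

def vS : BV := (0, 0, 0, 0)
def vX (a j : ℕ) : BV := (1, a, 0, j)
def vZ (a b m : ℕ) : BV := (2, a, b, m)
def vY (b j : ℕ) : BV := (3, 0, b, j)
def vT : BV := (4, 0, 0, 0)

/-- the position of a vertex -/
def pos (N : ℕ) (v : BV) : ℕ :=
  if v.1 = 0 then 0 else if v.1 = 1 then 1 + v.2.2.2 else if v.1 = 2 then N + 2 + v.2.2.2
    else if v.1 = 3 then N + N * N + 3 + v.2.2.2 else 2 * N + N * N + 4

section

variable (N : ℕ)

@[simp] theorem pos_S : pos N vS = 0 := rfl
@[simp] theorem pos_X (a j : ℕ) : pos N (vX a j) = 1 + j := rfl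
@[simp] theorem pos_Z (a b m : ℕ) : pos N (vZ a b m) = N + 2 + m := rfl
@[simp] theorem pos_Y (b j : ℕ) : pos N (vY b j) = N + N * N + 3 + j := rfl
@[simp] theorem pos_T : pos N vT = 2 * N + N * N + 4 := rfl

/-- the length of an arc with the given cost -/
def lenA (u v : BV) (c : ℕ) : ℕ := 4 * (N * N) * (pos N v - pos N u) + c

/-- an arc with the given cost and multiplicity -/
def arc (u v : BV) (c m : ℕ) : Arc BV × ℕ := ((u, v, lenA N u v c), m)

variable (k : ℕ) (adj : ℕ → ℕ → Bool)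

/-- the budget -/
def bud (k : ℕ) : ℕ := k * k + 2 * k

/-- the positions of `Z a b` which may be deleted -/
def okZ (a b m : ℕ) : Bool := if a = b then decide (m / N = m % N) else adj (m / N) (m % N)

/-- arcs at `X a`, `Y a` -/
def arcs1 (a : ℕ) : List (Arc BV × ℕ) :=
  [arc N vS (vX a 0) 0 (bud k + 1),
   arc N (vX a N) vT (2 * (N * N) + (N * N - 1)) (bud k + 1),
   arc N (vY a N) vT 0 (bud k + 1),
   arc N vS (vY a 0) (2 * (N * N) + (N * N - 1)) (bud k + 1)]

def arcs2 (a j : ℕ) : List (Arc BV × ℕ) :=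
  [arc N (vX a j) (vX a (j + 1)) 0 1,
   arc N (vY a j) (vY a (j + 1)) 0 1,
   arc N vS (vX a (j + 1)) (N * N + N * j) (bud k + 1),
   arc N (vY a j) vT (N * N + (N - 1 - j)) (bud k + 1)]

def arcs3 (a b : ℕ) : List (Arc BV × ℕ) :=
  [arc N (vX a N) (vZ a b 0) 0 (bud k + 1),
   arc N (vZ a b (N * N)) (vY b 0) 0 (bud k + 1),
   arc N vS (vZ a b 0) (N * N + N * (N - 1)) (bud k + 1),
   arc N (vZ a b (N * N)) vT (N * N + (N - 1)) (bud k + 1)]

def arcs4 (a b m : ℕ) : List (Arc BV × ℕ) :=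
  [arc N (vZ a b m) (vZ a b (m + 1)) 0 (if okZ N adj a b m = true then 1 else bud k + 1)]

def arcs5 (a b m j : ℕ) : List (Arc BV × ℕ) :=
  [arc N (vX a j) (vZ a b (m + 1)) (2 * (N * N) + N * (N - 1 - j) + m) (bud k + 1),
   arc N (vZ a b m) (vY b (j + 1)) (2 * (N * N) + (N * N - 1 - m) + j) (bud k + 1)]

/-- all arcs -/
def arcs : List (Arc BV × ℕ) :=
  ((List.range k).flatMap fun a => arcs1 N k a) ++
  (((List.range k).flatMap fun a => (List.range N).flatMap fun j => arcs2 N k a j) ++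
  (((List.range k).flatMap fun a => (List.range k).flatMap fun b => arcs3 N k a b) ++
  (((List.range k).flatMap fun a => (List.range k).flatMap fun b =>
      (List.range (N * N)).flatMap fun m => arcs4 N k adj a b m) ++
  ((List.range k).flatMap fun a => (List.range k).flatMap fun b =>
      (List.range (N * N)).flatMap fun m => (List.range N).flatMap fun j =>
        arcs5 N k a b m j))))

theorem mem_arcs (p : Arc BV × ℕ) : p ∈ arcs N k adj ↔
    (∃ a < k, p ∈ arcs1 N k a) ∨ (∃ a < k, ∃ j < N, p ∈ arcs2 N k a j) ∨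
    (∃ a < k, ∃ b < k, p ∈ arcs3 N k a b) ∨
    (∃ a < k, ∃ b < k, ∃ m < N * N, p ∈ arcs4 N k adj a b m) ∨
    (∃ a < k, ∃ b < k, ∃ m < N * N, ∃ j < N, p ∈ arcs5 N k a b m j) := by
  simp only [arcs, List.mem_append, List.mem_flatMap, List.mem_range]

/-- the distance which has to be reached -/
def goal : ℕ := 4 * (N * N) * (2 * N + N * N + 4) + (3 * (N * N) + (N * N - 1))

theorem arc_shape {N k : ℕ} {adj : ℕ → ℕ → Bool} (hk : k ≤ N) {p : Arc BV × ℕ}
    (hp : p ∈ arcs N k adj) : 1 ≤ N ∧ 1 ≤ k ∧ (∃ u v c m, p = arc N u v c m ∧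
      pos N u < pos N v) := by
  have hsub : ∀ j < N, j + 1 ≤ N := fun j hj => hj
  rw [mem_arcs] at hp
  rcases hp with ⟨a, ha, h⟩ | ⟨a, ha, j, hj, h⟩ | ⟨a, ha, b, hb, h⟩ | ⟨a, ha, b, hb, m, hm, h⟩ |
    ⟨a, ha, b, hb, m, hm, j, hj, h⟩
  · refine ⟨by omega, by omega, ?_⟩
    simp only [arcs1, List.mem_cons, List.not_mem_nil, or_false] at h
    rcases h with h | h | h | h <;> subst h <;> refine ⟨_, _, _, _, rfl, ?_⟩ <;>
      simp only [pos_S, pos_X, pos_Y, pos_Z, pos_T] <;> omega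
  · refine ⟨by omega, by omega, ?_⟩
    simp only [arcs2, List.mem_cons, List.not_mem_nil, or_false] at h
    rcases h with h | h | h | h <;> subst h <;> refine ⟨_, _, _, _, rfl, ?_⟩ <;>
      simp only [pos_S, pos_X, pos_Y, pos_Z, pos_T] <;> omega
  · refine ⟨by omega, by omega, ?_⟩
    simp only [arcs3, List.mem_cons, List.not_mem_nil, or_false] at h
    rcases h with h | h | h | h <;> subst h <;> refine ⟨_, _, _, _, rfl, ?_⟩ <;>
      simp only [pos_S, pos_X, pos_Y, pos_Z, pos_T] <;> omega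
  · refine ⟨by omega, by omega, ?_⟩
    simp only [arcs4, List.mem_cons, List.not_mem_nil, or_false] at h
    subst h
    refine ⟨_, _, _, _, rfl, ?_⟩
    simp only [pos_S, pos_X, pos_Y, pos_Z, pos_T]
    omega
  · refine ⟨by omega, by omega, ?_⟩
    simp only [arcs5, List.mem_cons, List.not_mem_nil, or_false] at h
    rcases h with h | h <;> subst h <;> refine ⟨_, _, _, _, rfl, ?_⟩ <;>
      simp only [pos_S, pos_X, pos_Y, pos_Z, pos_T] <;> omega

theorem arcs_len {N k : ℕ} {adj : ℕ → ℕ → Bool} (hk : k ≤ N) :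
    ∀ p ∈ arcs N k adj, 2 ≤ p.1.2.2 := by
  intro p hp
  obtain ⟨hN, _, u, v, c, m, rfl, hlt⟩ := arc_shape hk hp
  have h1 : 1 ≤ N * N := Nat.mul_pos hN hN
  have h2 : 4 * (N * N) * 1 ≤ 4 * (N * N) * (pos N v - pos N u) :=
    Nat.mul_le_mul_left _ (by omega)
  change 2 ≤ 4 * (N * N) * (pos N v - pos N u) + c
  omega

theorem arcs_mult {N k : ℕ} {adj : ℕ → ℕ → Bool} :
    ∀ p ∈ arcs N k adj, p.2 = 1 ∨ bud k < p.2 := by
  intro p hp
  rw [mem_arcs] at hp
  rcases hp with ⟨a, ha, h⟩ | ⟨a, ha, j, hj, h⟩ | ⟨a, ha, b, hb, h⟩ | ⟨a, ha, b, hb, m, hm, h⟩ |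
    ⟨a, ha, b, hb, m, hm, j, hj, h⟩
  · simp only [arcs1, List.mem_cons, List.not_mem_nil, or_false] at h
    rcases h with h | h | h | h <;> subst h <;>
      first | exact Or.inl rfl | exact Or.inr (Nat.lt_succ_self _)
  · simp only [arcs2, List.mem_cons, List.not_mem_nil, or_false] at h
    rcases h with h | h | h | h <;> subst h <;>
      first | exact Or.inl rfl | exact Or.inr (Nat.lt_succ_self _)
  · simp only [arcs3, List.mem_cons, List.not_mem_nil, or_false] at h
    rcases h with h | h | h | h <;> subst h <;>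
      first | exact Or.inl rfl | exact Or.inr (Nat.lt_succ_self _)
  · simp only [arcs4, List.mem_cons, List.not_mem_nil, or_false] at h
    subst h
    by_cases hok : okZ N adj a b m = true
    · rw [if_pos hok]
      exact Or.inl rfl
    · rw [if_neg hok]
      exact Or.inr (Nat.lt_succ_self _)
  · simp only [arcs5, List.mem_cons, List.not_mem_nil, or_false] at h
    rcases h with h | h <;> subst h <;>
      first | exact Or.inl rfl | exact Or.inr (Nat.lt_succ_self _)

/-- deletable arcs -/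
def cX (a j : ℕ) : Arc BV := (arc N (vX a j) (vX a (j + 1)) 0 1).1
def cY (b j : ℕ) : Arc BV := (arc N (vY b j) (vY b (j + 1)) 0 1).1
def cZ (a b m : ℕ) : Arc BV := (arc N (vZ a b m) (vZ a b (m + 1)) 0 1).1

theorem one_mem_arcs {N k : ℕ} {adj : ℕ → ℕ → Bool} {α : Arc BV} {m₀ : ℕ}
    (hm : m₀ ≤ bud k) (hp : (α, m₀) ∈ arcs N k adj) :
    m₀ = 1 ∧ ((∃ a < k, ∃ j < N, α = cX N a j) ∨ (∃ b < k, ∃ j < N, α = cY N b j) ∨
      (∃ a < k, ∃ b < k, ∃ m < N * N, okZ N adj a b m = true ∧ α = cZ N a b m)) := by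
  rw [mem_arcs] at hp
  rcases hp with ⟨a, ha, h⟩ | ⟨a, ha, j, hj, h⟩ | ⟨a, ha, b, hb, h⟩ | ⟨a, ha, b, hb, m, hm, h⟩ |
    ⟨a, ha, b, hb, m, hm, j, hj, h⟩
  · simp only [arcs1, List.mem_cons, List.not_mem_nil, or_false] at h
    rcases h with h | h | h | h <;> simp only [arc, Prod.mk.injEq] at h <;> omega
  · simp only [arcs2, List.mem_cons, List.not_mem_nil, or_false] at h
    rcases h with h | h | h | h
    · exact ⟨congrArg Prod.snd h, Or.inl ⟨a, ha, j, hj, congrArg Prod.fst h⟩⟩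
    · exact ⟨congrArg Prod.snd h, Or.inr (Or.inl ⟨a, ha, j, hj, congrArg Prod.fst h⟩)⟩
    · simp only [arc, Prod.mk.injEq] at h
      omega
    · simp only [arc, Prod.mk.injEq] at h
      omega
  · simp only [arcs3, List.mem_cons, List.not_mem_nil, or_false] at h
    rcases h with h | h | h | h <;> simp only [arc, Prod.mk.injEq] at h <;> omega
  · simp only [arcs4, List.mem_cons, List.not_mem_nil, or_false] at h
    by_cases hok : okZ N adj a b m = true
    · rw [if_pos hok] at h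
      exact ⟨congrArg Prod.snd h,
        Or.inr (Or.inr ⟨a, ha, b, hb, m, by assumption, hok, congrArg Prod.fst h⟩)⟩
    · rw [if_neg hok] at h
      simp only [arc, Prod.mk.injEq] at h
      omega
  · simp only [arcs5, List.mem_cons, List.not_mem_nil, or_false] at h
    rcases h with h | h <;> simp only [arc, Prod.mk.injEq] at h <;> omega

end

end Pool.Agent.TH705.SV
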