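import Pool.Agent.TH705.SV.Clq

/-!
# A clique gives a solution
-/

set_option linter.unusedSimpArgs false

namespace Pool.Agent.TH705.SV

section

variable (N k : ℕ) (v : ℕ → ℕ)

/-- the arcs which are deleted for the vertices `v` of a clique -/
def delSet : Finset (Arc BV) :=
  (Finset.range k).image (fun a => cX N a (v a)) ∪
    ((Finset.range k).image (fun b => cY N b (v b)) ∪
      (Finset.range k ×ˢ Finset.range k).image (fun p => cZ N p.1 p.2 (N * v p.1 + v p.2)))

theorem delSet_card : (delSet N k v).card ≤ bud k := by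
  unfold delSet bud
  refine (Finset.card_union_le _ _).trans ?_
  have h1 := Finset.card_union_le ((Finset.range k).image (fun b => cY N b (v b)))
    ((Finset.range k ×ˢ Finset.range k).image (fun p => cZ N p.1 p.2 (N * v p.1 + v p.2)))
  have h2 : ((Finset.range k).image (fun a => cX N a (v a))).card ≤ k := by
    simpa using Finset.card_image_le (s := Finset.range k) (f := fun a => cX N a (v a))
  have h3 : ((Finset.range k).image (fun b => cY N b (v b))).card ≤ k := by
    simpa using Finset.card_image_le (s := Finset.range k) (f := fun b => cY N b (v b))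
  have h4 : ((Finset.range k ×ˢ Finset.range k).image
      (fun p => cZ N p.1 p.2 (N * v p.1 + v p.2))).card ≤ k * k := by
    refine Finset.card_image_le.trans ?_
    rw [Finset.card_product, Finset.card_range]
  omega

/-- distances from `s` without the positions -/
def dist (w : BV) : ℕ :=
  if w.1 = 0 then 0
  else if w.1 = 1 then (if w.2.2.2 ≤ v w.2.1 then 0 else N * N + N * v w.2.1)
  else if w.1 = 2 then (if w.2.2.2 ≤ N * v w.2.1 + v w.2.2.1 then N * N + N * v w.2.1
    else 2 * (N * N) + N * (N - 1) + v w.2.2.1)
  else if w.1 = 3 then (if w.2.2.2 ≤ v w.2.2.1 then 2 * (N * N) + N * (N - 1) + v w.2.2.1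
    else 3 * (N * N) + (N * N - 1))
  else 3 * (N * N) + (N * N - 1)

@[simp] theorem dist_S : dist N v vS = 0 := rfl
@[simp] theorem dist_T : dist N v vT = 3 * (N * N) + (N * N - 1) := rfl
@[simp] theorem dist_X (a j : ℕ) :
    dist N v (vX a j) = if j ≤ v a then 0 else N * N + N * v a := rfl
@[simp] theorem dist_Z (a b m : ℕ) : dist N v (vZ a b m) =
    if m ≤ N * v a + v b then N * N + N * v a else 2 * (N * N) + N * (N - 1) + v b := rfl
@[simp] theorem dist_Y (b j : ℕ) : dist N v (vY b j) =
    if j ≤ v b then 2 * (N * N) + N * (N - 1) + v b else 3 * (N * N) + (N * N - 1) := rfl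

/-- the potential -/
def pt (w : BV) : ℕ := 4 * (N * N) * pos N w + dist N v w

theorem pt_arc {u w : BV} {c m : ℕ} (hpos : pos N u < pos N w)
    (h : dist N v w ≤ dist N v u + c) (hb : dist N v u ≤ 4 * (N * N)) :
    pt N v (arc N u w c m).1.2.1 ≤ pt N v (arc N u w c m).1.1 + (arc N u w c m).1.2.2 ∧
    pt N v (arc N u w c m).1.1 ≤ pt N v (arc N u w c m).1.2.1 + (arc N u w c m).1.2.2 := by
  change pt N v w ≤ pt N v u + lenA N u w c ∧ pt N v u ≤ pt N v w + lenA N u w c
  unfold pt lenA
  obtain ⟨d, hd⟩ : ∃ d, pos N w = pos N u + (d + 1) := ⟨pos N w - pos N u - 1, by omega⟩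
  rw [hd, Nat.add_sub_cancel_left, Nat.mul_add, Nat.mul_succ]
  generalize 4 * (N * N) * d = x
  generalize 4 * (N * N) * pos N u = y
  omega

end

theorem clq_complete {N k : ℕ} {adj : ℕ → ℕ → Bool} (hk : k ≤ N) {v : ℕ → ℕ}
    (hv : ∀ a < k, v a < N)
    (hok : ∀ a < k, ∀ b < k, okZ N adj a b (N * v a + v b) = true) :
    NameMve (verts (arcs N k adj) vS vT) link (Sum.inl vS) (Sum.inl vT) (bud k) (goal N) := by
  refine net_complete (D := delSet N k v) (delSet_card N k v) ?_ (q := pt N v) ?_ ?_ ?_
  · rintro ⟨α, m⟩ hp hD
    simp only at hD ⊢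
    have hk1 := (arc_shape hk hp).2.1
    -- the multiplicity of a deleted arc
    have key : ∀ (u w : BV) (c m' : ℕ), α = (arc N u w c m').1 → u.1 = w.1 → m = 1 ∨
        ∃ a b n, α = cZ N a b n ∧ okZ N adj a b n ≠ true := by
      intro u w c m' hα huw
      rw [mem_arcs] at hp
      rcases hp with ⟨a, ha, h⟩ | ⟨a, ha, j, hj, h⟩ | ⟨a, ha, b, hb, h⟩ |
        ⟨a, ha, b, hb, n, hn, h⟩ | ⟨a, ha, b, hb, n, hn, j, hj, h⟩
      · simp only [arcs1, List.mem_cons, List.not_mem_nil, or_false] at h
        rcases h with h | h | h | h <;>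
          (have h1 := congrArg Prod.fst h
           simp only at h1
           rw [hα] at h1
           simp only [arc, Prod.mk.injEq] at h1
           obtain ⟨h2, h3, _⟩ := h1
           rw [h2, h3] at huw
           exact absurd huw (by simp [vS, vT, vX, vY, vZ]))
      · simp only [arcs2, List.mem_cons, List.not_mem_nil, or_false] at h
        rcases h with h | h | h | h
        · exact Or.inl (congrArg Prod.snd h)
        · exact Or.inl (congrArg Prod.snd h)
        · have h1 := congrArg Prod.fst h
          simp only at h1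
          rw [hα] at h1
          simp only [arc, Prod.mk.injEq] at h1
          obtain ⟨h2, h3, _⟩ := h1
          rw [h2, h3] at huw
          exact absurd huw (by simp [vS, vT, vX, vY, vZ])
        · have h1 := congrArg Prod.fst h
          simp only at h1
          rw [hα] at h1
          simp only [arc, Prod.mk.injEq] at h1
          obtain ⟨h2, h3, _⟩ := h1
          rw [h2, h3] at huw
          exact absurd huw (by simp [vS, vT, vX, vY, vZ])
      · simp only [arcs3, List.mem_cons, List.not_mem_nil, or_false] at h
        rcases h with h | h | h | h <;>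
          (have h1 := congrArg Prod.fst h
           simp only at h1
           rw [hα] at h1
           simp only [arc, Prod.mk.injEq] at h1
           obtain ⟨h2, h3, _⟩ := h1
           rw [h2, h3] at huw
           exact absurd huw (by simp [vS, vT, vX, vY, vZ]))
      · simp only [arcs4, List.mem_cons, List.not_mem_nil, or_false] at h
        by_cases hok' : okZ N adj a b n = true
        · rw [if_pos hok'] at h
          exact Or.inl (congrArg Prod.snd h)
        · exact Or.inr ⟨a, b, n, congrArg Prod.fst h, hok'⟩
      · simp only [arcs5, List.mem_cons, List.not_mem_nil, or_false] at h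
        rcases h with h | h <;>
          (have h1 := congrArg Prod.fst h
           simp only at h1
           rw [hα] at h1
           simp only [arc, Prod.mk.injEq] at h1
           obtain ⟨h2, h3, _⟩ := h1
           rw [h2, h3] at huw
           exact absurd huw (by simp [vS, vT, vX, vY, vZ]))
    unfold delSet at hD
    rw [Finset.mem_union, Finset.mem_union, Finset.mem_image, Finset.mem_image,
      Finset.mem_image] at hD
    rcases hD with ⟨a, ha, h⟩ | ⟨b, hb, h⟩ | ⟨⟨a, b⟩, hab, h⟩
    · rcases key _ _ _ _ h.symm rfl with h1 | ⟨a', b', n, h1, _⟩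
      · exact h1
      · rw [← h] at h1
        simp [cX, cZ, arc, vX, vZ] at h1
    · rcases key _ _ _ _ h.symm rfl with h1 | ⟨a', b', n, h1, _⟩
      · exact h1
      · rw [← h] at h1
        simp [cY, cZ, arc, vY, vZ] at h1
    · rcases key _ _ _ _ h.symm rfl with h1 | ⟨a', b', n, h1, h2⟩
      · exact h1
      · rw [← h] at h1
        simp only [cZ, arc, vZ, Prod.mk.injEq, true_and] at h1
        rw [Finset.mem_product, Finset.mem_range, Finset.mem_range] at hab
        obtain ⟨⟨rfl, rfl, rfl⟩, _⟩ := h1
        exact absurd (hok a hab.1 b hab.2) h2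
  · simp [pt]
  · unfold pt goal
    simp
  · intro p hp hD
    obtain ⟨hN, hk1, -⟩ := arc_shape hk hp
    have hNN : N * N = N * (N - 1) + N := by
      obtain ⟨n, rfl⟩ : ∃ n, N = n + 1 := ⟨N - 1, by omega⟩
      rw [Nat.add_sub_cancel]
      ring
    have hmul : ∀ a < k, N * v a ≤ N * (N - 1) := fun a ha =>
      Nat.mul_le_mul_left _ (by have := hv a ha; omega)
    rw [mem_arcs] at hp
    rcases hp with ⟨a, ha, h⟩ | ⟨a, ha, j, hj, h⟩ | ⟨a, ha, b, hb, h⟩ |
      ⟨a, ha, b, hb, m, hm, h⟩ | ⟨a, ha, b, hb, m, hm, j, hj, h⟩
    · have h1 := hv a ha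
      have h2 := hmul a ha
      simp only [arcs1, List.mem_cons, List.not_mem_nil, or_false] at h
      rcases h with h | h | h | h <;> subst h <;> refine pt_arc N v ?_ ?_ ?_ <;>
        simp only [pos_S, pos_X, pos_Y, pos_Z, pos_T, dist_S, dist_T, dist_X, dist_Y, dist_Z] <;>
        (try split_ifs) <;> omega
    · have h1 := hv a ha
      have h2 := hmul a ha
      simp only [arcs2, List.mem_cons, List.not_mem_nil, or_false] at h
      rcases h with h | h | h | h
      · subst h
        have h3 : j ≠ v a := by
          rintro rfl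
          refine hD (Finset.mem_union_left _ (Finset.mem_image.2 ⟨a, Finset.mem_range.2 ha, rfl⟩))
        refine pt_arc N v ?_ ?_ ?_ <;>
        simp only [pos_S, pos_X, pos_Y, pos_Z, pos_T, dist_S, dist_T, dist_X, dist_Y, dist_Z] <;>
        (try split_ifs) <;> omega
      · subst h
        have h3 : j ≠ v a := by
          rintro rfl
          refine hD (Finset.mem_union_right _ (Finset.mem_union_left _
            (Finset.mem_image.2 ⟨a, Finset.mem_range.2 ha, rfl⟩)))
        refine pt_arc N v ?_ ?_ ?_ <;>
        simp only [pos_S, pos_X, pos_Y, pos_Z, pos_T, dist_S, dist_T, dist_X, dist_Y, dist_Z] <;>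
        (try split_ifs) <;> omega
      · subst h
        have h3 : v a ≤ j → N * v a ≤ N * j := fun h => Nat.mul_le_mul_left _ h
        refine pt_arc N v ?_ ?_ ?_ <;>
        simp only [pos_S, pos_X, pos_Y, pos_Z, pos_T, dist_S, dist_T, dist_X, dist_Y, dist_Z] <;>
        (try split_ifs) <;> omega
      · subst h
        refine pt_arc N v ?_ ?_ ?_ <;>
        simp only [pos_S, pos_X, pos_Y, pos_Z, pos_T, dist_S, dist_T, dist_X, dist_Y, dist_Z] <;>
        (try split_ifs) <;> omega
    · have h1 := hv a ha
      have h2 := hmul a ha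
      have h3 := hv b hb
      simp only [arcs3, List.mem_cons, List.not_mem_nil, or_false] at h
      rcases h with h | h | h | h <;> subst h <;> refine pt_arc N v ?_ ?_ ?_ <;>
        simp only [pos_S, pos_X, pos_Y, pos_Z, pos_T, dist_S, dist_T, dist_X, dist_Y, dist_Z] <;>
        (try split_ifs) <;> omega
    · have h1 := hv a ha
      have h2 := hmul a ha
      have h3 := hv b hb
      simp only [arcs4, List.mem_cons, List.not_mem_nil, or_false] at h
      subst h
      have h4 : m ≠ N * v a + v b := by
        intro hmm
        refine hD (Finset.mem_union_right _ (Finset.mem_union_right _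
          (Finset.mem_image.2 ⟨(a, b), Finset.mem_product.2 ⟨Finset.mem_range.2 ha,
            Finset.mem_range.2 hb⟩, ?_⟩)))
        rw [hmm]
        rfl
      refine pt_arc N v ?_ ?_ ?_ <;>
        simp only [pos_S, pos_X, pos_Y, pos_Z, pos_T, dist_S, dist_T, dist_X, dist_Y, dist_Z] <;>
        (try split_ifs) <;> omega
    · have h1 := hv a ha
      have h2 := hmul a ha
      have h3 := hv b hb
      have h4 : j ≤ v a → N * j ≤ N * v a := fun h => Nat.mul_le_mul_left _ h
      have h5 : N * (N - 1 - j) + N * j = N * (N - 1) := by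
        rw [← Nat.mul_add]
        congr 1
        omega
      simp only [arcs5, List.mem_cons, List.not_mem_nil, or_false] at h
      rcases h with h | h <;> subst h <;> refine pt_arc N v ?_ ?_ ?_ <;>
        simp only [pos_S, pos_X, pos_Y, pos_Z, pos_T, dist_S, dist_T, dist_X, dist_Y, dist_Z] <;>
        (try split_ifs) <;> omega

end Pool.Agent.TH705.SV
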