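import Mathlib

/-!
# Shortest Path Most Vital Edges

Weighted graphs given by matrices, and the decision problem SP-MVE.
-/

namespace Pool.Agent.TH705.SV

/-- `MostVital G τ s t k ℓ`: there is a set `S` of at most `k` edges of `G` such that every path
from `s` to `t` in `G - S` has total length at least `ℓ`, for the edge lengths `τ`. -/
def MostVital {V : Type} (G : SimpleGraph V) (τ : Sym2 V → ℕ) (s t : V) (k ℓ : ℕ) : Prop :=
  ∃ S : Finset (Sym2 V), (S : Set (Sym2 V)) ⊆ G.edgeSet ∧ S.card ≤ k ∧
    ∀ p : (G.deleteEdges (S : Set (Sym2 V))).Walk s t, p.IsPath → ℓ ≤ (p.edges.map τ).sum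

/-- The entry of the matrix `W` at `{i, j}` (only the entries above the diagonal are used, missing
entries are `0`). -/
def wt (W : List (List ℕ)) (i j : ℕ) : ℕ := (W.getD (min i j) []).getD (max i j) 0

theorem wt_comm (W : List (List ℕ)) (i j : ℕ) : wt W i j = wt W j i := by
  unfold wt
  rw [min_comm, max_comm]

/-- The graph with vertices `0, …, n - 1` in which `i ≠ j` are adjacent iff the entry of the
`n × n` matrix at `{i, j}` is positive. -/
def wGraph (W : List (List ℕ)) : SimpleGraph (Fin W.length) where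
  Adj i j := i ≠ j ∧ 0 < wt W i j
  symm := ⟨fun _ _ h => ⟨h.1.symm, by rw [wt_comm]; exact h.2⟩⟩
  loopless := ⟨fun _ h => h.1 rfl⟩

/-- The length of the edge `{i, j}` is the entry of the matrix. -/
def wLen (W : List (List ℕ)) : Sym2 (Fin W.length) → ℕ :=
  Sym2.lift ⟨fun i j => wt W i j, fun i j => wt_comm W i j⟩

/-- Instances `(W, (s, t), (k, ℓ))` of Shortest Path Most Vital Edges. -/
abbrev Inst := List (List ℕ) × (ℕ × ℕ) × (ℕ × ℕ)

/-- Shortest Path Most Vital Edges: `s` and `t` are vertices, and there is a set `S` of at most `k`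
edges of the graph such that every `s`-`t` path in the graph without `S` has length at least
`ℓ`. -/
def SPMVE (I : Inst) : Prop :=
  ∃ (hs : I.2.1.1 < I.1.length) (ht : I.2.1.2 < I.1.length),
    MostVital (wGraph I.1) (wLen I.1) ⟨I.2.1.1, hs⟩ ⟨I.2.1.2, ht⟩ I.2.2.1 I.2.2.2

end Pool.Agent.TH705.SV
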