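import Pool.Agent.TH705.SV.Pot

/-!
# Graphs given by a list of names, and networks of arcs with multiplicities
-/

namespace Pool.Agent.TH705.SV

/-! ### Names -/

section Names

variable {α : Type}

/-- the 0/1 matrix of a relation on a list of names -/
def mat (L : List α) (link : α → α → Bool) : List (List ℕ) :=
  L.map fun x => L.map fun y => if link x y || link y x then 1 else 0

theorem mat_length (L : List α) (link : α → α → Bool) : (mat L link).length = L.length := by
  simp [mat]

theorem wt_mat (L : List α) (link : α → α → Bool) {i j : ℕ} (hi : i < L.length)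
    (hj : j < L.length) :
    wt (mat L link) i j = if link L[i] L[j] || link L[j] L[i] then 1 else 0 := by
  have key : ∀ (a b : ℕ) (ha : a < L.length) (hb : b < L.length),
      ((mat L link).getD a []).getD b 0 = if link L[a] L[b] || link L[b] L[a] then 1 else 0 := by
    intro a b ha hb
    simp [mat, List.getD_eq_getElem?_getD, ha, hb]
  unfold wt
  rcases le_total i j with h | h
  · rw [min_eq_left h, max_eq_right h, key i j hi hj]
  · rw [min_eq_right h, max_eq_left h, key j i hj hi, Bool.or_comm]

/-- SP-MVE on the level of names. -/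
def NameMve (L : List α) (link : α → α → Bool) (s t : α) (k ℓ : ℕ) : Prop :=
  ∃ S : Finset (Sym2 α), S.card ≤ k ∧ ∃ q : α → ℕ, q s = 0 ∧ ℓ ≤ q t ∧
    ∀ x ∈ L, ∀ y ∈ L, (link x y = true ∨ link y x = true) → s(x, y) ∉ S → q y ≤ q x + 1

theorem spmve_mat {L : List α} {link : α → α → Bool} {s t : α} {rest : List α}
    (hL : L = s :: t :: rest) (hnd : L.Nodup) (hirr : ∀ x, link x x = false) (k ℓ : ℕ) :
    SPMVE (mat L link, (0, 1), (k, ℓ)) ↔ NameMve L link s t k ℓ := by
  classical
  have hlen : (mat L link).length = L.length := mat_length L link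
  have h0 : 0 < L.length := by rw [hL]; simp
  have h1 : 1 < L.length := by rw [hL]; simp
  have e0 : L[0] = s := by subst hL; rfl
  have e1 : L[1] = t := by subst hL; rfl
  -- the naming map
  let φ : Fin (mat L link).length → α := fun i => L[(i : ℕ)]'(by have := i.isLt; omega)
  have hφ : Function.Injective φ := by
    intro i j hij
    exact Fin.ext ((List.Nodup.getElem_inj_iff hnd).1 hij)
  have hsurj : ∀ x ∈ L, ∃ i, φ i = x := by
    intro x hx
    obtain ⟨i, hi, rfl⟩ := List.mem_iff_getElem.1 hx
    exact ⟨⟨i, by omega⟩, rfl⟩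
  have hmem : ∀ i, φ i ∈ L := fun i => List.getElem_mem _
  have hwt : ∀ i j : Fin (mat L link).length,
      wt (mat L link) i j = if link (φ i) (φ j) || link (φ j) (φ i) then 1 else 0 := by
    intro i j
    exact wt_mat L link (by have := i.isLt; omega) (by have := j.isLt; omega)
  have hadj : ∀ i j, (wGraph (mat L link)).Adj i j ↔
      (link (φ i) (φ j) = true ∨ link (φ j) (φ i) = true) := by
    intro i j
    change (i ≠ j ∧ 0 < wt (mat L link) i j) ↔ _
    rw [hwt]
    constructor
    · rintro ⟨_, h⟩
      by_contra hc
      rw [if_neg (by rwa [Bool.or_eq_true])] at h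
      omega
    · intro h
      refine ⟨?_, by rw [if_pos (by rwa [Bool.or_eq_true])]; omega⟩
      rintro rfl
      rcases h with h | h <;> rw [hirr] at h <;> exact absurd h (by decide)
  have hlen' : ∀ i j, (wGraph (mat L link)).Adj i j → wLen (mat L link) s(i, j) = 1 := by
    intro i j h
    change wt (mat L link) i j = 1
    rw [hwt, if_pos (by rw [Bool.or_eq_true]; exact (hadj i j).1 h)]
  have es : φ ⟨0, by omega⟩ = s := e0
  have et : φ ⟨1, by omega⟩ = t := e1
  unfold SPMVE
  constructor
  · rintro ⟨_, _, h⟩
    rw [mostVital_iff] at h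
    obtain ⟨S, _, hc, q, hq0, hq1, hq⟩ := h
    refine ⟨S.image (Sym2.map φ), Finset.card_image_le.trans hc,
      fun x => if h : ∃ i, φ i = x then q h.choose else 0, ?_, ?_, ?_⟩
    · have hex : ∃ i, φ i = s := ⟨_, es⟩
      simp only [hex, dif_pos]
      rw [show hex.choose = ⟨0, by omega⟩ from hφ (by rw [hex.choose_spec, es])]
      exact hq0
    · have hex : ∃ i, φ i = t := ⟨_, et⟩
      simp only [hex, dif_pos]
      rw [show hex.choose = ⟨1, by omega⟩ from hφ (by rw [hex.choose_spec, et])]
      exact hq1
    · intro x hx y hy hxy hS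
      have hex := hsurj x hx
      have hey := hsurj y hy
      simp only [hex, hey, dif_pos]
      have e1 := hex.choose_spec
      have e2 := hey.choose_spec
      have ha : (wGraph (mat L link)).Adj hex.choose hey.choose := by
        rw [hadj, e1, e2]
        exact hxy
      have := hq _ _ ha (by
        intro h
        refine hS (Finset.mem_image.2 ⟨_, h, ?_⟩)
        rw [Sym2.map_mk, e1, e2])
      rw [hlen' _ _ ha] at this
      exact this
  · rintro ⟨S, hc, q, hq0, hq1, hq⟩
    refine ⟨by simp only; omega, by simp only; omega, ?_⟩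
    rw [mostVital_iff]
    refine ⟨Finset.univ.filter (fun e => e ∈ (wGraph (mat L link)).edgeSet ∧ Sym2.map φ e ∈ S),
      ?_, ?_, fun i => q (φ i), ?_, ?_, ?_⟩
    · intro e he
      exact (Finset.mem_filter.1 (Finset.mem_coe.1 he)).2.1
    · refine le_trans ?_ hc
      refine Finset.card_le_card_of_injOn (Sym2.map φ) ?_ ?_
      · intro e he
        exact (Finset.mem_filter.1 (Finset.mem_coe.1 he)).2.2
      · exact (Sym2.map.injective hφ).injOn
    · simp only [es, hq0]
    · simp only [et, hq1]
    · intro i j hij hS
      rw [hlen' i j hij]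
      refine hq _ (hmem i) _ (hmem j) ((hadj i j).1 hij) ?_
      intro h
      refine hS (Finset.mem_filter.2 ⟨Finset.mem_univ _, hij, ?_⟩)
      rw [Sym2.map_mk]
      exact h

end Names

end Pool.Agent.TH705.SV
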