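import Pool.Agent.TH705.SV.Sound
import Pool.Agent.H257R2.LJW.Clique
import Pool.Agent.H257R2.OS.G1
import Pool.Agent.H671R2.PolyAuto

/-!
# The reduction is computable in polynomial time
-/

set_option linter.unusedSimpArgs false

namespace Pool.Agent.TH705.SV

open Pool.Agent.NPC Pool.Agent.H633R2

/-! ### Removing duplicates -/

theorem dedup_eq_foldr {β : Type} [DecidableEq β] (l : List β) :
    l.dedup = l.foldr (fun a acc => if a ∈ acc then acc else a :: acc) [] := by
  induction l with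
  | nil => rfl
  | cons a l ih =>
    rw [List.foldr_cons, ← ih]
    by_cases h : a ∈ l
    · rw [List.dedup_cons_of_mem h, if_pos (List.mem_dedup.2 h)]
    · rw [List.dedup_cons_of_notMem h, if_neg (by rwa [List.mem_dedup])]

theorem sz_dedup_le {β : Type} [TEnc β] [DecidableEq β] (l : List β) : sz l.dedup ≤ sz l := by
  induction l with
  | nil => simp
  | cons a l ih =>
    by_cases h : a ∈ l
    · rw [List.dedup_cons_of_mem h, sz_list_cons]
      omega
    · rw [List.dedup_cons_of_notMem h, sz_list_cons, sz_list_cons]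
      omega

theorem sz_drop_le' {β : Type} [TEnc β] (l : List β) (k : ℕ) : sz (l.drop k) ≤ sz l :=
  Poly.sz_drop_le l k

theorem dedup_poly {α β : Type} [TEnc α] [TEnc β] [DecidableEq β] {l : α → List β}
    (hl : Poly l) : Poly (fun a => (l a).dedup) := by
  obtain ⟨r, hr⟩ := hl.sz_le
  refine (Poly.foldr (l := l) (s := fun _ => ([] : List β))
    (F := fun _ b acc => if b ∈ acc then acc else b :: acc) hl (NPC.Poly.const _) (by fun_prop) r
    ?_).congr fun a => (dedup_eq_foldr (l a)).symm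
  intro a k _
  rw [← dedup_eq_foldr]
  exact (sz_dedup_le _).trans ((sz_drop_le' _ _).trans (hr a))

attribute [local fun_prop] dedup_poly

/-! ### Bounds on the arcs -/

/-- a bound on all lengths -/
def cmax (N : ℕ) : ℕ := 4 * (N * N) * (2 * N + N * N + 4) + 4 * (N * N)

theorem arcs_bound {N k : ℕ} {adj : ℕ → ℕ → Bool} (hk : k ≤ N) :
    ∀ p ∈ arcs N k adj, p.1.2.2 - 1 ≤ cmax N ∧ p.2 ≤ bud k + 1 := by
  intro p hp
  obtain ⟨hN, _, -⟩ := arc_shape hk hp
  have hNN : N * N = N * (N - 1) + N := by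
    obtain ⟨n, rfl⟩ : ∃ n, N = n + 1 := ⟨N - 1, by omega⟩
    rw [Nat.add_sub_cancel]
    ring
  have key : ∀ (u w : BV) (c m : ℕ), pos N w ≤ 2 * N + N * N + 4 → c ≤ 4 * (N * N) →
      m ≤ bud k + 1 →
      (arc N u w c m).1.2.2 - 1 ≤ cmax N ∧ (arc N u w c m).2 ≤ bud k + 1 := by
    intro u w c m h1 h2 h3
    refine ⟨?_, h3⟩
    change 4 * (N * N) * (pos N w - pos N u) + c - 1 ≤ cmax N
    have : 4 * (N * N) * (pos N w - pos N u) ≤ 4 * (N * N) * (2 * N + N * N + 4) :=
      Nat.mul_le_mul_left _ (by omega)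
    unfold cmax
    omega
  rw [mem_arcs] at hp
  rcases hp with ⟨a, ha, h⟩ | ⟨a, ha, j, hj, h⟩ | ⟨a, ha, b, hb, h⟩ | ⟨a, ha, b, hb, m, hm, h⟩ |
    ⟨a, ha, b, hb, m, hm, j, hj, h⟩
  · simp only [arcs1, List.mem_cons, List.not_mem_nil, or_false] at h
    rcases h with h | h | h | h <;> subst h <;> refine key _ _ _ _ ?_ ?_ ?_ <;>
      (try simp only [pos_S, pos_X, pos_Y, pos_Z, pos_T]) <;> omega
  · have h1 : N * j ≤ N * (N - 1) := Nat.mul_le_mul_left _ (by omega)
    simp only [arcs2, List.mem_cons, List.not_mem_nil, or_false] at h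
    rcases h with h | h | h | h <;> subst h <;> refine key _ _ _ _ ?_ ?_ ?_ <;>
      (try simp only [pos_S, pos_X, pos_Y, pos_Z, pos_T]) <;> omega
  · simp only [arcs3, List.mem_cons, List.not_mem_nil, or_false] at h
    rcases h with h | h | h | h <;> subst h <;> refine key _ _ _ _ ?_ ?_ ?_ <;>
      (try simp only [pos_S, pos_X, pos_Y, pos_Z, pos_T]) <;> omega
  · simp only [arcs4, List.mem_cons, List.not_mem_nil, or_false] at h
    subst h
    refine key _ _ _ _ ?_ ?_ ?_
    · simp only [pos_S, pos_X, pos_Y, pos_Z, pos_T]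
      omega
    · omega
    · split_ifs <;> omega
  · have h1 : N * (N - 1 - j) ≤ N * (N - 1) := Nat.mul_le_mul_left _ (by omega)
    simp only [arcs5, List.mem_cons, List.not_mem_nil, or_false] at h
    rcases h with h | h <;> subst h <;> refine key _ _ _ _ ?_ ?_ ?_ <;>
      (try simp only [pos_S, pos_X, pos_Y, pos_Z, pos_T]) <;> omega

/-! ### The parts of the reduction -/

/-- inputs -/
abbrev CIn := List (List Bool) × ℕ

def gN (x : CIn) : ℕ := x.1.length
def gk (x : CIn) : ℕ := min x.2 x.1.length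
def gB (x : CIn) : ℕ := gk x * gk x + 2 * gk x
def gP (x : CIn) : ℕ := gN x * gN x
def gC (x : CIn) : ℕ := 4 * gP x * (2 * gN x + gP x + 4) + 4 * gP x

theorem u_gN : UPoly gN := UPoly.length (Poly.fst Poly.id)
theorem u_gk : UPoly gk := UPoly.of_le (n := gN) (by unfold gk; fun_prop) u_gN
  (fun _ => min_le_right _ _)
theorem u_gB : UPoly gB := UPoly.add (UPoly.mul u_gk u_gk) (UPoly.mul (UPoly.const 2) u_gk)
theorem u_gB1 : UPoly (fun x => gB x + 1) := UPoly.add u_gB (UPoly.const 1)
theorem u_gP : UPoly gP := UPoly.mul u_gN u_gN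
theorem u_gC : UPoly gC :=
  UPoly.add (UPoly.mul (UPoly.mul (UPoly.const 4) u_gP)
    (UPoly.add (UPoly.add (UPoly.mul (UPoly.const 2) u_gN) u_gP) (UPoly.const 4)))
    (UPoly.mul (UPoly.const 4) u_gP)

variable {α : Type} [TEnc α]

theorem p_gN {f : α → CIn} (hf : Poly f) : Poly (fun a => gN (f a)) := u_gN.toPoly.comp hf
theorem p_gk {f : α → CIn} (hf : Poly f) : Poly (fun a => gk (f a)) := u_gk.toPoly.comp hf
theorem p_gB {f : α → CIn} (hf : Poly f) : Poly (fun a => gB (f a)) := u_gB.toPoly.comp hf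
theorem p_gP {f : α → CIn} (hf : Poly f) : Poly (fun a => gP (f a)) := u_gP.toPoly.comp hf
theorem r_gN {f : α → CIn} (hf : Poly f) : Poly (fun a => List.range (gN (f a))) :=
  u_gN.range.comp hf
theorem r_gk {f : α → CIn} (hf : Poly f) : Poly (fun a => List.range (gk (f a))) :=
  u_gk.range.comp hf
theorem r_gP {f : α → CIn} (hf : Poly f) : Poly (fun a => List.range (gP (f a))) :=
  u_gP.range.comp hf

/-- bounded ranges -/
theorem r_min {β : Type} [TEnc β] {n : β → ℕ} {m : β → ℕ} (hn : UPoly n) (hm : Poly m) :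
    Poly (fun b => List.range (min (m b) (n b))) :=
  (UPoly.of_le (n := n) (Poly.min hm hn.toPoly) hn (fun _ => min_le_right _ _)).range

theorem r_B {f : α → CIn} {m : α → ℕ} (hf : Poly f) (hm : Poly m) :
    Poly (fun a => List.range (min (m a) (gB (f a) + 1))) :=
  r_min (u_gB1.comp hf) hm
theorem r_C {f : α → CIn} {m : α → ℕ} (hf : Poly f) (hm : Poly m) :
    Poly (fun a => List.range (min (m a) (gC (f a)))) :=
  r_min (u_gC.comp hf) hm

attribute [local fun_prop] p_gN p_gk p_gB p_gP r_gN r_gk r_gP r_B r_C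

def gEntry (x : CIn) (i j : ℕ) : Bool := entry x.1 i j

theorem p_entry {f : α → CIn} {i j : α → ℕ} (hf : Poly f) (hi : Poly i) (hj : Poly j) :
    Poly (fun a => gEntry (f a) (i a) (j a)) := by
  unfold gEntry
  exact Pool.Agent.H257R2.LJW.entry_poly (Poly.fst hf) hi hj

attribute [local fun_prop] p_entry

def gAdj (x : CIn) (i j : ℕ) : Bool := decide (i ≠ j) && (gEntry x i j || gEntry x j i)

theorem p_adj {f : α → CIn} {i j : α → ℕ} (hf : Poly f) (hi : Poly i) (hj : Poly j) :
    Poly (fun a => gAdj (f a) (i a) (j a)) := by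
  unfold gAdj
  fun_prop

attribute [local fun_prop] p_adj

/-- position -/
def gpos (x : CIn) (v : BV) : ℕ :=
  if v.1 = 0 then 0 else if v.1 = 1 then 1 + v.2.2.2 else if v.1 = 2 then gN x + 2 + v.2.2.2
    else if v.1 = 3 then gN x + gP x + 3 + v.2.2.2 else 2 * gN x + gP x + 4

theorem p_gpos {f : α → CIn} {v : α → BV} (hf : Poly f) (hv : Poly v) :
    Poly (fun a => gpos (f a) (v a)) := by
  unfold gpos
  fun_prop

attribute [local fun_prop] p_gpos

def garc (x : CIn) (u v : BV) (c m : ℕ) : Arc BV × ℕ :=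
  ((u, v, 4 * gP x * (gpos x v - gpos x u) + c), m)

theorem p_garc {f : α → CIn} {u v : α → BV} {c m : α → ℕ} (hf : Poly f) (hu : Poly u)
    (hv : Poly v) (hc : Poly c) (hm : Poly m) :
    Poly (fun a => garc (f a) (u a) (v a) (c a) (m a)) := by
  unfold garc
  fun_prop

attribute [local fun_prop] p_garc

def gok (x : CIn) (a b m : ℕ) : Bool :=
  if a = b then decide (m / gN x = m % gN x) else gAdj x (m / gN x) (m % gN x)

theorem p_gok {f : α → CIn} {a b m : α → ℕ} (hf : Poly f) (ha : Poly a) (hb : Poly b)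
    (hm : Poly m) : Poly (fun y => gok (f y) (a y) (b y) (m y)) := by
  unfold gok
  fun_prop

attribute [local fun_prop] p_gok

def g1 (x : CIn) (a : ℕ) : List (Arc BV × ℕ) :=
  [garc x (0, 0, 0, 0) (1, a, 0, 0) 0 (gB x + 1),
   garc x (1, a, 0, gN x) (4, 0, 0, 0) (2 * gP x + (gP x - 1)) (gB x + 1),
   garc x (3, 0, a, gN x) (4, 0, 0, 0) 0 (gB x + 1),
   garc x (0, 0, 0, 0) (3, 0, a, 0) (2 * gP x + (gP x - 1)) (gB x + 1)]

def g2 (x : CIn) (a j : ℕ) : List (Arc BV × ℕ) :=
  [garc x (1, a, 0, j) (1, a, 0, j + 1) 0 1,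
   garc x (3, 0, a, j) (3, 0, a, j + 1) 0 1,
   garc x (0, 0, 0, 0) (1, a, 0, j + 1) (gP x + gN x * j) (gB x + 1),
   garc x (3, 0, a, j) (4, 0, 0, 0) (gP x + (gN x - 1 - j)) (gB x + 1)]

def g3 (x : CIn) (a b : ℕ) : List (Arc BV × ℕ) :=
  [garc x (1, a, 0, gN x) (2, a, b, 0) 0 (gB x + 1),
   garc x (2, a, b, gP x) (3, 0, b, 0) 0 (gB x + 1),
   garc x (0, 0, 0, 0) (2, a, b, 0) (gP x + gN x * (gN x - 1)) (gB x + 1),
   garc x (2, a, b, gP x) (4, 0, 0, 0) (gP x + (gN x - 1)) (gB x + 1)]

def g4 (x : CIn) (a b m : ℕ) : List (Arc BV × ℕ) :=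
  [garc x (2, a, b, m) (2, a, b, m + 1) 0 (if gok x a b m = true then 1 else gB x + 1)]

def g5 (x : CIn) (a b m j : ℕ) : List (Arc BV × ℕ) :=
  [garc x (1, a, 0, j) (2, a, b, m + 1) (2 * gP x + gN x * (gN x - 1 - j) + m) (gB x + 1),
   garc x (2, a, b, m) (3, 0, b, j + 1) (2 * gP x + (gP x - 1 - m) + j) (gB x + 1)]

theorem p_g1 {f : α → CIn} {a : α → ℕ} (hf : Poly f) (ha : Poly a) :
    Poly (fun y => g1 (f y) (a y)) := by unfold g1; fun_prop
theorem p_g2 {f : α → CIn} {a j : α → ℕ} (hf : Poly f) (ha : Poly a) (hj : Poly j) :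
    Poly (fun y => g2 (f y) (a y) (j y)) := by unfold g2; fun_prop
theorem p_g3 {f : α → CIn} {a b : α → ℕ} (hf : Poly f) (ha : Poly a) (hb : Poly b) :
    Poly (fun y => g3 (f y) (a y) (b y)) := by unfold g3; fun_prop
theorem p_g4 {f : α → CIn} {a b m : α → ℕ} (hf : Poly f) (ha : Poly a) (hb : Poly b)
    (hm : Poly m) : Poly (fun y => g4 (f y) (a y) (b y) (m y)) := by unfold g4; fun_prop
theorem p_g5 {f : α → CIn} {a b m j : α → ℕ} (hf : Poly f) (ha : Poly a) (hb : Poly b)
    (hm : Poly m) (hj : Poly j) : Poly (fun y => g5 (f y) (a y) (b y) (m y) (j y)) := by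
  unfold g5; fun_prop

attribute [local fun_prop] p_g1 p_g2 p_g3 p_g4 p_g5

def l1 (x : CIn) : List (Arc BV × ℕ) := (List.range (gk x)).flatMap fun a => g1 x a
def l2 (x : CIn) : List (Arc BV × ℕ) :=
  (List.range (gk x)).flatMap fun a => (List.range (gN x)).flatMap fun j => g2 x a j
def l3 (x : CIn) : List (Arc BV × ℕ) :=
  (List.range (gk x)).flatMap fun a => (List.range (gk x)).flatMap fun b => g3 x a b
def l4 (x : CIn) : List (Arc BV × ℕ) :=
  (List.range (gk x)).flatMap fun a => (List.range (gk x)).flatMap fun b =>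
      (List.range (gP x)).flatMap fun m => g4 x a b m
def l5 (x : CIn) : List (Arc BV × ℕ) :=
  (List.range (gk x)).flatMap fun a => (List.range (gk x)).flatMap fun b =>
      (List.range (gP x)).flatMap fun m => (List.range (gN x)).flatMap fun j => g5 x a b m j

theorem p_l1 : Poly l1 := by unfold l1; fun_prop
theorem p_l2 : Poly l2 := by unfold l2; fun_prop
theorem p_l3 : Poly l3 := by unfold l3; fun_prop
theorem p_l4 : Poly l4 := by unfold l4; fun_prop
theorem p_l5 : Poly l5 := by unfold l5; fun_prop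

attribute [local fun_prop] p_l1 p_l2 p_l3 p_l4 p_l5

def gA (x : CIn) : List (Arc BV × ℕ) := l1 x ++ (l2 x ++ (l3 x ++ (l4 x ++ l5 x)))

theorem p_gA : Poly gA := by unfold gA; fun_prop

attribute [local fun_prop] p_gA

theorem gA_eq (x : CIn) : gA x = arcs (gN x) (gk x) (gAdj x) := rfl

def gmids (x : CIn) : List (Name BV) :=
  (gA x).flatMap fun p => (List.range (min p.2 (gB x + 1))).flatMap fun r =>
    (List.range (min (p.1.2.2 - 1) (gC x))).map fun i => Sum.inr (p.1, r, i + 1)

theorem p_gmids : Poly gmids := by unfold gmids; fun_prop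

theorem gmids_eq (x : CIn) : gmids x = mids (gA x) := by
  unfold gmids mids
  refine List.flatMap_congr fun p hp => ?_
  have h := arcs_bound (N := gN x) (k := gk x) (adj := gAdj x) (min_le_right _ _) p hp
  rw [min_eq_left (show p.2 ≤ gB x + 1 from h.2), min_eq_left (show p.1.2.2 - 1 ≤ gC x from h.1)]

theorem p_bases : Poly (fun x : CIn => bases (gA x)) := by unfold bases; fun_prop

theorem p_mids : Poly (fun x : CIn => mids (gA x)) := p_gmids.congr gmids_eq

attribute [local fun_prop] p_bases p_mids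

theorem p_verts : Poly (fun x : CIn => verts (gA x) vS vT) := by
  unfold verts others vS vT
  fun_prop

theorem p_link {f g : α → Name BV} (hf : Poly f) (hg : Poly g) :
    Poly (fun a => link (f a) (g a)) := by
  unfold link
  fun_prop

attribute [local fun_prop] p_verts p_link

def gV (x : CIn) : List (Name BV) := verts (gA x) vS vT

theorem p_gV {f : α → CIn} (hf : Poly f) : Poly (fun a => gV (f a)) := p_verts.comp hf

def gbit (n m : Name BV) : ℕ := if link n m || link m n then 1 else 0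

theorem p_gbit {f g : α → Name BV} (hf : Poly f) (hg : Poly g) :
    Poly (fun a => gbit (f a) (g a)) := by
  unfold gbit
  fun_prop

attribute [local fun_prop] p_gV p_gbit

theorem p_mat' : Poly (fun x : CIn => (gV x).map fun n => (gV x).map fun m => gbit n m) := by
  fun_prop

theorem p_mat : Poly (fun x : CIn => mat (verts (gA x) vS vT) link) := p_mat'

attribute [local fun_prop] p_mat

def ggoal (x : CIn) : ℕ := 4 * gP x * (2 * gN x + gP x + 4) + (3 * gP x + (gP x - 1))

theorem p_ggoal : Poly ggoal := by unfold ggoal; fun_prop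

attribute [local fun_prop] p_ggoal

/-- the reduction -/
def red (x : CIn) : Inst :=
  if x.2 ≤ x.1.length then (mat (verts (gA x) vS vT) link, (0, 1), (gB x, ggoal x))
  else ([[0, 1], [0, 0]], (0, 1), (0, 2))

theorem p_red : Poly red := by unfold red; fun_prop

theorem red_iff (x : CIn) : HasClique x ↔ SPMVE (red x) := by
  unfold red
  by_cases h : x.2 ≤ x.1.length
  · rw [if_pos h]
    have hk : gk x = x.2 := min_eq_left h
    have h1 : gB x = bud x.2 := by unfold gB bud; rw [hk]
    have h2 : ggoal x = goal (gN x) := rfl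
    rw [spmve_mat (L := verts (gA x) vS vT) (s := Sum.inl vS) (t := Sum.inl vT)
      (rest := others (gA x) vS vT) rfl (verts_nodup _ (by decide)) link_irr, h1, h2, gA_eq, hk]
    rw [Pool.Agent.H257R2.OS.clique_iff]
    constructor
    · rintro ⟨v, hv, hadj⟩
      refine clq_complete h hv fun a ha b hb => ?_
      have hb' : v b < gN x := hv b hb
      unfold okZ
      have e1 : (gN x * v a + v b) / gN x = v a := by
        rw [Nat.mul_add_div (by omega), Nat.div_eq_of_lt hb', Nat.add_zero]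
      have e2 : (gN x * v a + v b) % gN x = v b := by
        rw [Nat.mul_add_mod, Nat.mod_eq_of_lt hb']
      rw [e1, e2]
      by_cases hab : a = b
      · rw [if_pos hab, hab]
        simp
      · rw [if_neg hab]
        exact hadj a ha b hb hab
    · intro hm
      obtain ⟨v, hv, hadj⟩ := clq_sound h hm
      exact ⟨v, hv, hadj⟩
  · rw [if_neg h]
    constructor
    · rintro ⟨S, hS⟩
      have h2 := hS.card_eq
      have h3 := S.card_le_univ
      rw [Fintype.card_fin] at h3
      omega
    · rintro ⟨hs, ht, hM⟩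
      exfalso
      rw [mostVital_iff] at hM
      obtain ⟨S, _, hc, q, hq0, hq1, hq⟩ := hM
      have hS : S = ∅ := Finset.card_eq_zero.1 (Nat.le_zero.1 hc)
      subst hS
      have hadj : (wGraph ([[0, 1], [0, 0]] : List (List ℕ))).Adj ⟨0, hs⟩ ⟨1, ht⟩ := by
        refine ⟨by simp, ?_⟩
        change 0 < wt ([[0, 1], [0, 0]] : List (List ℕ)) 0 1
        decide
      have h4 := hq _ _ hadj (Finset.notMem_empty _)
      have h5 : wLen ([[0, 1], [0, 0]] : List (List ℕ)) s(⟨0, hs⟩, ⟨1, ht⟩) = 1 := by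
        change wt ([[0, 1], [0, 0]] : List (List ℕ)) 0 1 = 1
        decide
      rw [h5] at h4
      simp only at hq0 hq1 h4
      omega

theorem red_param (x : CIn) : (red x).2.2.1 ≤ x.2 * x.2 + 2 * x.2 := by
  unfold red
  split_ifs with h
  · have hk : gk x = x.2 := min_eq_left h
    simp only [gB, hk]
    exact le_rfl
  · exact Nat.zero_le _

theorem red_unit (x : CIn) : ∀ r ∈ (red x).1, ∀ w ∈ r, w ≤ 1 := by
  unfold red
  split_ifs with h
  · intro r hr w hw
    simp only [mat, List.mem_map] at hr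
    obtain ⟨a, _, rfl⟩ := hr
    rw [List.mem_map] at hw
    obtain ⟨b, _, rfl⟩ := hw
    split_ifs <;> omega
  · intro r hr w hw
    simp only [List.mem_cons, List.not_mem_nil, or_false] at hr
    rcases hr with rfl | rfl <;> simp at hw <;> omega

theorem reduces : FptReduces (fun x : List (List Bool) × ℕ => x.2) HasClique
    (fun I : Inst => I.2.2.1) SPMVE :=
  ⟨red, fun k => k * k + 2 * k, FptTime.of_poly p_red,
    add_computable (mul_computable Computable.id Computable.id)
      (mul_computable (Computable.const 2) Computable.id),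
    fun a => ⟨red_iff a, red_param a⟩⟩

theorem w1Hard : W1Hard (fun I : Inst => I.2.2.1) SPMVE := W1Hard.of_clique reduces

end Pool.Agent.TH705.SV
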