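import Pool.Agent.TH705.SV.Defs

/-!
# Distances and potentials
-/

namespace Pool.Agent.TH705.SV

variable {V : Type} {G : SimpleGraph V} {τ : Sym2 V → ℕ} {s t : V} {ℓ : ℕ}

theorem pot_walk {q : V → ℕ} (hq : ∀ u v, G.Adj u v → q v ≤ q u + τ s(u, v)) :
    ∀ {u v : V} (p : G.Walk u v), q v ≤ q u + (p.edges.map τ).sum
  | _, _, .nil => by simp
  | u, v, .cons (v := w) h p => by
    have h1 := pot_walk hq p
    have h2 := hq _ _ h
    rw [SimpleGraph.Walk.edges_cons, List.map_cons, List.sum_cons]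
    omega

theorem paths_of_pot {q : V → ℕ} (hs : q s = 0) (ht : ℓ ≤ q t)
    (hq : ∀ u v, G.Adj u v → q v ≤ q u + τ s(u, v)) (p : G.Walk s t) :
    ℓ ≤ (p.edges.map τ).sum := by
  have := pot_walk hq p
  omega

theorem sum_bypass_le [DecidableEq V] {u v : V} (p : G.Walk u v) :
    (p.bypass.edges.map τ).sum ≤ (p.edges.map τ).sum := by
  have h1 : p.bypass.edges.Subperm p.edges :=
    (p.bypass_isPath.isTrail.edges_nodup).subperm p.edges_bypass_subset_edges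
  obtain ⟨l, hl1, hl2⟩ := h1
  have h2 := (hl1.map τ).sum_eq
  rw [← h2]
  exact (hl2.map τ).sum_le_sum (fun _ _ => Nat.zero_le _)

open Classical in
theorem pot_of_paths (h : ∀ p : G.Walk s t, p.IsPath → ℓ ≤ (p.edges.map τ).sum) :
    ∃ q : V → ℕ, q s = 0 ∧ ℓ ≤ q t ∧ ∀ u v, G.Adj u v → q v ≤ q u + τ s(u, v) := by
  refine ⟨fun v => sInf ({ℓ} ∪ {m | ∃ p : G.Walk s v, m = (p.edges.map τ).sum}), ?_, ?_, ?_⟩
  · refine Nat.sInf_eq_zero.2 (Or.inl (Or.inr ⟨.nil, by simp⟩))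
  · refine le_csInf ⟨ℓ, Or.inl rfl⟩ ?_
    rintro m (hm | ⟨p, rfl⟩)
    · exact (Set.mem_singleton_iff.1 hm).ge
    · exact (h p.bypass p.bypass_isPath).trans (sum_bypass_le p)
  · intro u v huv
    have hu : sInf ({ℓ} ∪ {m | ∃ p : G.Walk s u, m = (p.edges.map τ).sum}) ∈
        ({ℓ} ∪ {m | ∃ p : G.Walk s u, m = (p.edges.map τ).sum} : Set ℕ) :=
      Nat.sInf_mem ⟨ℓ, Or.inl rfl⟩
    beta_reduce
    rcases hu with hu | ⟨p, hp⟩
    · rw [Set.mem_singleton_iff.1 hu]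
      exact (Nat.sInf_le (Or.inl rfl)).trans (Nat.le_add_right _ _)
    · rw [hp]
      refine Nat.sInf_le (Or.inr ⟨p.concat huv, ?_⟩)
      rw [SimpleGraph.Walk.edges_concat, List.concat_eq_append, List.map_append, List.sum_append]
      simp

/-- `MostVital` in terms of potentials. -/
theorem mostVital_iff {k : ℕ} : MostVital G τ s t k ℓ ↔
    ∃ S : Finset (Sym2 V), (S : Set (Sym2 V)) ⊆ G.edgeSet ∧ S.card ≤ k ∧
      ∃ q : V → ℕ, q s = 0 ∧ ℓ ≤ q t ∧
        ∀ u v, G.Adj u v → s(u, v) ∉ S → q v ≤ q u + τ s(u, v) := by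
  unfold MostVital
  refine exists_congr fun S => and_congr_right fun _ => and_congr_right fun _ => ⟨fun h => ?_, ?_⟩
  · obtain ⟨q, h1, h2, h3⟩ := pot_of_paths h
    refine ⟨q, h1, h2, fun u v huv hS => h3 u v ?_⟩
    rw [SimpleGraph.deleteEdges_adj]
    exact ⟨huv, fun h => hS (Finset.mem_coe.1 h)⟩
  · rintro ⟨q, h1, h2, h3⟩ p _
    refine paths_of_pot h1 h2 (fun u v huv => ?_) p
    rw [SimpleGraph.deleteEdges_adj] at huv
    exact h3 u v huv.1 (fun h => huv.2 (Finset.mem_coe.2 h))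

end Pool.Agent.TH705.SV
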