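import Pool.Agent.TH705.SV.Compl

/-!
# A solution gives a clique
-/

set_option linter.unusedSimpArgs false

namespace Pool.Agent.TH705.SV

/-- normalised potentials along an arc -/
theorem norm_arc {N : ℕ} {q : BV → ℕ} {u w : BV} {c : ℕ} (hpos : pos N u < pos N w)
    (h : q w ≤ q u + lenA N u w c) :
    (q w : ℤ) - ((4 * (N * N) * pos N w : ℕ) : ℤ) ≤
      (q u : ℤ) - ((4 * (N * N) * pos N u : ℕ) : ℤ) + c := by
  unfold lenA at h
  obtain ⟨d, hd⟩ : ∃ d, pos N w = pos N u + d := ⟨pos N w - pos N u, by omega⟩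
  rw [hd, Nat.add_sub_cancel_left] at h
  rw [hd, Nat.mul_add]
  generalize 4 * (N * N) * d = x at *
  generalize 4 * (N * N) * pos N u = y at *
  omega

/-- monotone along a chain -/
theorem chain_le {f : ℕ → ℤ} {i j : ℕ} (hij : i ≤ j) (h : ∀ l, i ≤ l → l < j → f (l + 1) ≤ f l) :
    f j ≤ f i := by
  induction j, hij using Nat.le_induction with
  | base => exact le_rfl
  | succ j hj ih =>
    exact (h j hj (Nat.lt_succ_self _)).trans (ih fun l h1 h2 => h l h1 (by omega))

theorem clq_sound {N k : ℕ} {adj : ℕ → ℕ → Bool} (hk : k ≤ N)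
    (h : NameMve (verts (arcs N k adj) vS vT) link (Sum.inl vS) (Sum.inl vT) (bud k) (goal N)) :
    ∃ v : ℕ → ℕ, (∀ a < k, v a < N) ∧
      ∀ a < k, ∀ b < k, a ≠ b → adj (v a) (v b) = true := by
  classical
  rcases Nat.eq_zero_or_pos k with hk0 | hk0
  · subst hk0
    exact ⟨fun _ => 0, fun a ha => absurd ha (Nat.not_lt_zero _),
      fun a ha => absurd ha (Nat.not_lt_zero _)⟩
  obtain ⟨D, hD, hD1, q, hq0, hq1, hq⟩ := net_sound (arcs_len hk) arcs_mult h
  have hN : 1 ≤ N := by omega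
  have hNN : N * N = N * (N - 1) + N := by
    obtain ⟨n, rfl⟩ : ∃ n, N = n + 1 := ⟨N - 1, by omega⟩
    rw [Nat.add_sub_cancel]
    ring
  have hbud : 1 ≤ bud k := by unfold bud; omega
  -- shape of the elements of `D`
  have hDs : ∀ α ∈ D, (∃ a < k, ∃ j < N, α = cX N a j) ∨ (∃ b < k, ∃ j < N, α = cY N b j) ∨
      (∃ a < k, ∃ b < k, ∃ m < N * N, okZ N adj a b m = true ∧ α = cZ N a b m) :=
    fun α hα => (one_mem_arcs hbud (hD1 α hα)).2
  -- arcs between different kinds are not in `D`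
  have hnot : ∀ (u w : BV) (c m : ℕ), u.1 ≠ w.1 → (arc N u w c m).1 ∉ D := by
    intro u w c m huw hmem
    rcases hDs _ hmem with ⟨a, _, j, _, h1⟩ | ⟨b, _, j, _, h1⟩ | ⟨a, _, b, _, j, _, _, h1⟩ <;>
      (simp only [arc, cX, cY, cZ, Prod.mk.injEq] at h1
       obtain ⟨h2, h3, _⟩ := h1
       rw [h2, h3] at huw
       exact huw rfl)
  -- normalised potential
  let Q : BV → ℤ := fun w => (q w : ℤ) - ((4 * (N * N) * pos N w : ℕ) : ℤ)
  have hQs : Q vS = 0 := by simp [Q, hq0]
  have hQt : (3 * (N * N) + (N * N - 1) : ℕ) ≤ Q vT := by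
    simp only [Q, pos_T]
    unfold goal at hq1
    generalize 4 * (N * N) * (2 * N + N * N + 4) = x at *
    omega
  have hQ : ∀ (u w : BV) (c m : ℕ), pos N u < pos N w → arc N u w c m ∈ arcs N k adj →
      (arc N u w c m).1 ∉ D → Q w ≤ Q u + c := by
    intro u w c m hpos hmem hn
    exact norm_arc hpos (hq _ hmem hn)
  -- the arcs
  have a1 : ∀ a < k, Q (vX a 0) ≤ 0 := by
    intro a ha
    have := hQ vS (vX a 0) 0 (bud k + 1) (by simp) ((mem_arcs ..).2 (Or.inl ⟨a, ha, by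
      simp [arcs1]⟩)) (hnot _ _ _ _ (by simp [vS, vX]))
    rw [hQs] at this
    simpa using this
  have a2 : ∀ a < k, Q vT ≤ Q (vX a N) + (2 * (N * N) + (N * N - 1) : ℕ) := by
    intro a ha
    exact hQ (vX a N) vT (2 * (N * N) + (N * N - 1)) (bud k + 1)
      (by simp only [pos_X, pos_T]; omega)
      ((mem_arcs ..).2 (Or.inl ⟨a, ha, by simp [arcs1]⟩)) (hnot _ _ _ _ (by simp [vT, vX]))
  have a3 : ∀ a < k, Q vT ≤ Q (vY a N) := by
    intro a ha
    have := hQ (vY a N) vT 0 (bud k + 1) (by simp only [pos_Y, pos_T]; omega)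
      ((mem_arcs ..).2 (Or.inl ⟨a, ha, by simp [arcs1]⟩)) (hnot _ _ _ _ (by simp [vT, vY]))
    simpa using this
  have a4 : ∀ a < k, Q (vY a 0) ≤ (2 * (N * N) + (N * N - 1) : ℕ) := by
    intro a ha
    have := hQ vS (vY a 0) (2 * (N * N) + (N * N - 1)) (bud k + 1)
      (by simp only [pos_Y, pos_S]; omega)
      ((mem_arcs ..).2 (Or.inl ⟨a, ha, by simp [arcs1]⟩)) (hnot _ _ _ _ (by simp [vS, vY]))
    rw [hQs] at this
    simpa using this
  have b1 : ∀ a < k, ∀ j < N, cX N a j ∉ D → Q (vX a (j + 1)) ≤ Q (vX a j) := by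
    intro a ha j hj hn
    have := hQ (vX a j) (vX a (j + 1)) 0 1 (by simp)
      ((mem_arcs ..).2 (Or.inr (Or.inl ⟨a, ha, j, hj, by simp [arcs2]⟩))) hn
    simpa using this
  have b2 : ∀ a < k, ∀ j < N, cY N a j ∉ D → Q (vY a (j + 1)) ≤ Q (vY a j) := by
    intro a ha j hj hn
    have := hQ (vY a j) (vY a (j + 1)) 0 1 (by simp)
      ((mem_arcs ..).2 (Or.inr (Or.inl ⟨a, ha, j, hj, by simp [arcs2]⟩))) hn
    simpa using this
  have b3 : ∀ a < k, ∀ j < N, Q (vX a (j + 1)) ≤ (N * N + N * j : ℕ) := by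
    intro a ha j hj
    have := hQ vS (vX a (j + 1)) (N * N + N * j) (bud k + 1) (by simp)
      ((mem_arcs ..).2 (Or.inr (Or.inl ⟨a, ha, j, hj, by simp [arcs2]⟩)))
      (hnot _ _ _ _ (by simp [vS, vX]))
    rw [hQs] at this
    simpa using this
  have b4 : ∀ a < k, ∀ j < N, Q vT ≤ Q (vY a j) + (N * N + (N - 1 - j) : ℕ) := by
    intro a ha j hj
    exact hQ (vY a j) vT (N * N + (N - 1 - j)) (bud k + 1) (by simp only [pos_Y, pos_T]; omega)
      ((mem_arcs ..).2 (Or.inr (Or.inl ⟨a, ha, j, hj, by simp [arcs2]⟩)))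
      (hnot _ _ _ _ (by simp [vT, vY]))
  have c1 : ∀ a < k, ∀ b < k, Q (vZ a b 0) ≤ Q (vX a N) := by
    intro a ha b hb
    have := hQ (vX a N) (vZ a b 0) 0 (bud k + 1) (by simp only [pos_X, pos_Z]; omega)
      ((mem_arcs ..).2 (Or.inr (Or.inr (Or.inl ⟨a, ha, b, hb, by simp [arcs3]⟩))))
      (hnot _ _ _ _ (by simp [vX, vZ]))
    simpa using this
  have c2 : ∀ a < k, ∀ b < k, Q (vY b 0) ≤ Q (vZ a b (N * N)) := by
    intro a ha b hb
    have := hQ (vZ a b (N * N)) (vY b 0) 0 (bud k + 1) (by simp only [pos_Y, pos_Z]; omega)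
      ((mem_arcs ..).2 (Or.inr (Or.inr (Or.inl ⟨a, ha, b, hb, by simp [arcs3]⟩))))
      (hnot _ _ _ _ (by simp [vY, vZ]))
    simpa using this
  have c3 : ∀ a < k, ∀ b < k, Q (vZ a b 0) ≤ (N * N + N * (N - 1) : ℕ) := by
    intro a ha b hb
    have := hQ vS (vZ a b 0) (N * N + N * (N - 1)) (bud k + 1)
      (by simp only [pos_S, pos_Z]; omega)
      ((mem_arcs ..).2 (Or.inr (Or.inr (Or.inl ⟨a, ha, b, hb, by simp [arcs3]⟩))))
      (hnot _ _ _ _ (by simp [vS, vZ]))
    rw [hQs] at this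
    simpa using this
  have c4 : ∀ a < k, ∀ b < k, Q vT ≤ Q (vZ a b (N * N)) + (N * N + (N - 1) : ℕ) := by
    intro a ha b hb
    exact hQ (vZ a b (N * N)) vT (N * N + (N - 1)) (bud k + 1)
      (by simp only [pos_T, pos_Z]; omega)
      ((mem_arcs ..).2 (Or.inr (Or.inr (Or.inl ⟨a, ha, b, hb, by simp [arcs3]⟩))))
      (hnot _ _ _ _ (by simp [vT, vZ]))
  have d1 : ∀ a < k, ∀ b < k, ∀ m < N * N, cZ N a b m ∉ D →
      Q (vZ a b (m + 1)) ≤ Q (vZ a b m) := by
    intro a ha b hb m hm hn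
    have := hQ (vZ a b m) (vZ a b (m + 1)) 0 (if okZ N adj a b m = true then 1 else bud k + 1)
      (by simp only [pos_Z]; omega)
      ((mem_arcs ..).2 (Or.inr (Or.inr (Or.inr (Or.inl ⟨a, ha, b, hb, m, hm, by simp [arcs4]⟩)))))
      hn
    simpa using this
  have e1 : ∀ a < k, ∀ b < k, ∀ m < N * N, ∀ j < N,
      Q (vZ a b (m + 1)) ≤ Q (vX a j) + (2 * (N * N) + N * (N - 1 - j) + m : ℕ) := by
    intro a ha b hb m hm j hj
    exact hQ (vX a j) (vZ a b (m + 1)) (2 * (N * N) + N * (N - 1 - j) + m) (bud k + 1)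
      (by simp only [pos_X, pos_Z]; omega)
      ((mem_arcs ..).2 (Or.inr (Or.inr (Or.inr (Or.inr ⟨a, ha, b, hb, m, hm, j, hj, by
        simp [arcs5]⟩))))) (hnot _ _ _ _ (by simp [vX, vZ]))
  have e2 : ∀ a < k, ∀ b < k, ∀ m < N * N, ∀ j < N,
      Q (vY b (j + 1)) ≤ Q (vZ a b m) + (2 * (N * N) + (N * N - 1 - m) + j : ℕ) := by
    intro a ha b hb m hm j hj
    exact hQ (vZ a b m) (vY b (j + 1)) (2 * (N * N) + (N * N - 1 - m) + j) (bud k + 1)
      (by simp only [pos_Y, pos_Z]; omega)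
      ((mem_arcs ..).2 (Or.inr (Or.inr (Or.inr (Or.inr ⟨a, ha, b, hb, m, hm, j, hj, by
        simp [arcs5]⟩))))) (hnot _ _ _ _ (by simp [vY, vZ]))
  -- every chain is cut
  have hX : ∀ a < k, ∃ j < N, cX N a j ∈ D := by
    intro a ha
    by_contra hcon
    have h1 : Q (vX a N) ≤ Q (vX a 0) := chain_le (f := fun j => Q (vX a j)) (Nat.zero_le _)
      fun l _ hl => b1 a ha l hl fun hm => hcon ⟨l, hl, hm⟩
    have h2 := a1 a ha
    have h3 := a2 a ha
    have h4 : 1 ≤ N * N := Nat.mul_pos hN hN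
    omega
  have hY : ∀ a < k, ∃ j < N, cY N a j ∈ D := by
    intro a ha
    by_contra hcon
    have h1 : Q (vY a N) ≤ Q (vY a 0) := chain_le (f := fun j => Q (vY a j)) (Nat.zero_le _)
      fun l _ hl => b2 a ha l hl fun hm => hcon ⟨l, hl, hm⟩
    have h2 := a3 a ha
    have h3 := a4 a ha
    have h4 : 1 ≤ N * N := Nat.mul_pos hN hN
    omega
  have hZ : ∀ a < k, ∀ b < k, ∃ m < N * N, cZ N a b m ∈ D := by
    intro a ha b hb
    by_contra hcon
    have h1 : Q (vZ a b (N * N)) ≤ Q (vZ a b 0) := chain_le (f := fun j => Q (vZ a b j))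
      (Nat.zero_le _) fun l _ hl => d1 a ha b hb l hl fun hm => hcon ⟨l, hl, hm⟩
    have h2 := c3 a ha b hb
    have h3 := c4 a ha b hb
    have h4 : 1 ≤ N * N := Nat.mul_pos hN hN
    omega
  choose! x hxN hx using hX
  choose! y hyN hy using hY
  choose! z hzN hz using hZ
  -- all deleted arcs
  have hDeq : D = ((Finset.range k).image (fun a => cX N a (x a))) ∪
      ((Finset.range k).image (fun b => cY N b (y b)) ∪
        (Finset.range k ×ˢ Finset.range k).image (fun p => cZ N p.1 p.2 (z p.1 p.2))) := by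
    symm
    refine Finset.eq_of_subset_of_card_le ?_ ?_
    · intro α hα
      rw [Finset.mem_union, Finset.mem_union, Finset.mem_image, Finset.mem_image,
        Finset.mem_image] at hα
      rcases hα with ⟨a, ha, rfl⟩ | ⟨a, ha, rfl⟩ | ⟨p, hp, rfl⟩
      · exact hx a (Finset.mem_range.1 ha)
      · exact hy a (Finset.mem_range.1 ha)
      · rw [Finset.mem_product, Finset.mem_range, Finset.mem_range] at hp
        exact hz _ hp.1 _ hp.2
    · refine hD.trans ?_
      rw [Finset.card_union_of_disjoint, Finset.card_union_of_disjoint,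
        Finset.card_image_of_injective, Finset.card_image_of_injective,
        Finset.card_image_of_injective, Finset.card_product, Finset.card_range]
      · unfold bud
        omega
      · intro p p' hpp
        simp only [cZ, arc, vZ, Prod.mk.injEq, true_and] at hpp
        exact Prod.ext hpp.1.1 hpp.1.2.1
      · intro p p' hpp
        simp only [cY, arc, vY, Prod.mk.injEq, true_and] at hpp
        exact hpp.1.1
      · intro p p' hpp
        simp only [cX, arc, vX, Prod.mk.injEq, true_and] at hpp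
        exact hpp.1.1
      · rw [Finset.disjoint_left]
        intro α h1 h2
        obtain ⟨b, _, rfl⟩ := Finset.mem_image.1 h1
        obtain ⟨p, _, h3⟩ := Finset.mem_image.1 h2
        simp [cY, cZ, arc, vY, vZ] at h3
      · rw [Finset.disjoint_left]
        intro α h1 h2
        obtain ⟨b, _, rfl⟩ := Finset.mem_image.1 h1
        rcases Finset.mem_union.1 h2 with h2 | h2
        · obtain ⟨p, _, h3⟩ := Finset.mem_image.1 h2
          simp [cX, cY, arc, vX, vY] at h3
        · obtain ⟨p, _, h3⟩ := Finset.mem_image.1 h2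
          simp [cX, cZ, arc, vX, vZ] at h3
  have uX : ∀ a < k, ∀ j, j ≠ x a → cX N a j ∉ D := by
    intro a ha j hj hmem
    rw [hDeq, Finset.mem_union, Finset.mem_union, Finset.mem_image, Finset.mem_image,
        Finset.mem_image] at hmem
    rcases hmem with ⟨a', ha', h⟩ | ⟨a', ha', h⟩ | ⟨p, hp, h⟩
    · simp only [cX, arc, vX, Prod.mk.injEq, true_and] at h
      obtain ⟨⟨h1, h2⟩, _⟩ := h
      exact hj (by rw [← h2, h1])
    · simp [cX, cY, arc, vX, vY] at h
    · simp [cX, cZ, arc, vX, vZ] at h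
  have uY : ∀ a < k, ∀ j, j ≠ y a → cY N a j ∉ D := by
    intro a ha j hj hmem
    rw [hDeq, Finset.mem_union, Finset.mem_union, Finset.mem_image, Finset.mem_image,
        Finset.mem_image] at hmem
    rcases hmem with ⟨a', ha', h⟩ | ⟨a', ha', h⟩ | ⟨p, hp, h⟩
    · simp [cX, cY, arc, vX, vY] at h
    · simp only [cY, arc, vY, Prod.mk.injEq, true_and] at h
      obtain ⟨⟨h1, h2⟩, _⟩ := h
      exact hj (by rw [← h2, h1])
    · simp [cY, cZ, arc, vY, vZ] at h
  have uZ : ∀ a < k, ∀ b < k, ∀ j, j ≠ z a b → cZ N a b j ∉ D := by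
    intro a ha b hb j hj hmem
    rw [hDeq, Finset.mem_union, Finset.mem_union, Finset.mem_image, Finset.mem_image,
        Finset.mem_image] at hmem
    rcases hmem with ⟨a', ha', h⟩ | ⟨a', ha', h⟩ | ⟨p, hp, h⟩
    · simp [cX, cZ, arc, vX, vZ] at h
    · simp [cY, cZ, arc, vY, vZ] at h
    · simp only [cZ, arc, vZ, Prod.mk.injEq, true_and] at h
      obtain ⟨⟨h1, h2, h3⟩, _⟩ := h
      exact hj (by rw [← h3, h1, h2])
  have okz : ∀ a < k, ∀ b < k, okZ N adj a b (z a b) = true := by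
    intro a ha b hb
    rcases hDs _ (hz a ha b hb) with ⟨a', _, j, _, h1⟩ | ⟨b', _, j, _, h1⟩ |
      ⟨a', _, b', _, j, _, h2, h1⟩
    · simp [cX, cZ, arc, vX, vZ] at h1
    · simp [cY, cZ, arc, vY, vZ] at h1
    · simp only [cZ, arc, vZ, Prod.mk.injEq, true_and] at h1
      obtain ⟨⟨h3, h4, h5⟩, _⟩ := h1
      rw [h5, h3, h4]
      exact h2
  -- the equation
  have main : ∀ a < k, ∀ b < k, z a b = N * x a + y b := by
    intro a ha b hb
    have hxa := hxN a ha
    have hyb := hyN b hb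
    have hzab := hzN a ha b hb
    have hmul : N * (N - 1 - x a) + N * x a = N * (N - 1) := by
      rw [← Nat.mul_add]
      congr 1
      omega
    -- first path
    have f1 : Q (vX a (x a)) ≤ Q (vX a 0) := chain_le (f := fun j => Q (vX a j))
      (Nat.zero_le _) fun l _ hl => b1 a ha l (by omega) (uX a ha l (by omega))
    have f2 := e1 a ha b hb (z a b) hzab (x a) hxa
    have f3 : Q (vZ a b (N * N)) ≤ Q (vZ a b (z a b + 1)) := chain_le
      (f := fun j => Q (vZ a b j)) hzab fun l hl hl2 => d1 a ha b hb l hl2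
        (uZ a ha b hb l (by omega))
    have f4 := c2 a ha b hb
    have f5 : Q (vY b (y b)) ≤ Q (vY b 0) := chain_le (f := fun j => Q (vY b j))
      (Nat.zero_le _) fun l _ hl => b2 b hb l (by omega) (uY b hb l (by omega))
    have f6 := b4 b hb (y b) hyb
    have f7 := a1 a ha
    -- second path
    have g1 := b3 a ha (x a) hxa
    have g2 : Q (vX a N) ≤ Q (vX a (x a + 1)) := chain_le (f := fun j => Q (vX a j))
      hxa fun l hl hl2 => b1 a ha l hl2 (uX a ha l (by omega))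
    have g3 := c1 a ha b hb
    have g4 : Q (vZ a b (z a b)) ≤ Q (vZ a b 0) := chain_le (f := fun j => Q (vZ a b j))
      (Nat.zero_le _) fun l _ hl => d1 a ha b hb l (by omega) (uZ a ha b hb l (by omega))
    have g5 := e2 a ha b hb (z a b) hzab (y b) hyb
    have g6 : Q (vY b N) ≤ Q (vY b (y b + 1)) := chain_le (f := fun j => Q (vY b j))
      hyb fun l hl hl2 => b2 b hb l hl2 (uY b hb l (by omega))
    have g7 := a3 b hb
    omega
  have hdiv : ∀ a < k, ∀ b < k, z a b / N = x a ∧ z a b % N = y b := by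
    intro a ha b hb
    rw [main a ha b hb]
    have hyb := hyN b hb
    constructor
    · rw [Nat.mul_add_div (by omega), Nat.div_eq_of_lt hyb, Nat.add_zero]
    · rw [Nat.mul_add_mod, Nat.mod_eq_of_lt hyb]
  have hxy : ∀ a < k, x a = y a := by
    intro a ha
    have h1 := okz a ha a ha
    unfold okZ at h1
    rw [if_pos rfl, decide_eq_true_eq, (hdiv a ha a ha).1, (hdiv a ha a ha).2] at h1
    exact h1
  refine ⟨x, hxN, fun a ha b hb hab => ?_⟩
  have h1 := okz a ha b hb
  unfold okZ at h1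
  rw [if_neg hab, (hdiv a ha b hb).1, (hdiv a ha b hb).2, ← hxy b hb] at h1
  exact h1

end Pool.Agent.TH705.SV
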